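import Pool.Agent.Lib.MP_a7e1fe_lc.Forcing

/-!
# The forcing construction: the limit tree
-/

open Set Primrec Encodable
open Pool.Agent.Lib.MP_a8cc1b_lc

namespace Pool.Agent.Lib.MP_a7e1fe_lc

/-- The answer to the query `q` read off the odd part of the oracle. -/
def Kv (z : ℕ → ℕ) (q : Idx) : ℕ := z (2 * encode [encode q] + 1)

theorem s01_Kv {α : Type} [Primcodable α] {g : α → Idx} (hg : Primrec g) :
    S01 (fun z a => Kv z (g a) = 1) :=
  S01.eval (p := fun q : α × ℕ => q.2 = 1) (Primrec.eq.comp snd (Primrec.const 1))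
    (nat_double_succ.comp (Primrec.encode.comp (list_cons.comp (Primrec.encode.comp hg)
      (Primrec.const []))))

theorem s01_not_Kv {α : Type} [Primcodable α] {g : α → Idx} (hg : Primrec g) :
    S01 (fun z a => ¬ Kv z (g a) = 1) :=
  S01.eval (p := fun q : α × ℕ => ¬ q.2 = 1) (Primrec.eq.comp snd (Primrec.const 1)).not
    (nat_double_succ.comp (Primrec.encode.comp (list_cons.comp (Primrec.encode.comp hg)
      (Primrec.const []))))

theorem primrec_idx0 : Primrec idx0 :=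
  (Primrec.const 0).pair (Primrec.id.pair ((Primrec.const ([], [])).pair (Primrec.const 0)))

theorem primrec_idx1 : Primrec₂ idx1 := by
  have h : Primrec fun q : Cond × ℕ => ((1, [], q.1, q.2) : Idx) :=
    (Primrec.const 1).pair ((Primrec.const []).pair (fst.pair snd))
  exact h.to₂

/-- A successful extension for the query of stage `t` at the condition `c`. -/
def RV (PT : (ℕ × ℕ) × List ℕ → Prop) (z : ℕ → ℕ) (q : (Cond × ℕ) × List ℕ) : Prop :=
  (Struct (q.1.1, q.2) ∧ Ev PT (q.1.2.unpair, pre (fun k => z (2 * k)) q.2.length, q.2)) ∧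
    ∀ i < q.2.length, (¬ (q.1.1.1.length ≤ i ∧ q.2.getD i 0 = 0)) ∨ ¬ Kv z (idx0 (nd i)) = 1

theorem s01_RV {PT : (ℕ × ℕ) × List ℕ → Prop} (hPT : PrimrecPred PT) : S01 (RV PT) := by
  apply S01.and
  · have h2 : PrimrecPred fun q : ((Cond × ℕ) × List ℕ) × List ℕ =>
        Struct (q.1.1.1, q.1.2) ∧ Ev PT (q.1.1.2.unpair, evensL q.2, q.1.2) := by
      refine PrimrecPred.and ?_ ?_
      · exact primrec_struct.comp ((fst.comp (fst.comp fst)).pair (snd.comp fst))
      · exact (primrec_ev hPT).comp ((Primrec.unpair.comp (snd.comp (fst.comp fst))).pair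
          ((primrec_evensL.comp snd).pair (snd.comp fst)))
    refine (S01.of_pre h2 (g := fun b : (Cond × ℕ) × List ℕ => 2 * b.2.length)
      (nat_double.comp (list_length.comp snd))).of_iff ?_
    intro x b
    rw [evensL_pre]
  · apply S01.ball (R := fun z (r : ((Cond × ℕ) × List ℕ) × ℕ) =>
      (¬ (r.1.1.1.1.length ≤ r.2 ∧ r.1.2.getD r.2 0 = 0)) ∨ ¬ Kv z (idx0 (nd r.2)) = 1)
    · apply S01.or
      · apply S01.of_primrec
        exact ((nat_le.comp (list_length.comp (fst.comp (fst.comp (fst.comp fst)))) snd).and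
          (Primrec.eq.comp ((list_getD 0).comp (snd.comp fst) snd) (Primrec.const 0))).not
      · exact s01_not_Kv (primrec_idx0.comp (primrec_nd.comp snd))
    · exact list_length.comp snd

/-- The step relation, in terms of a uniformization `U` of the search for extensions. -/
def StepR (U : (ℕ → ℕ) → (Cond × ℕ) × List ℕ → Prop) (z : ℕ → ℕ) (q : (ℕ × Cond) × Cond) :
    Prop :=
  ∃ s : List ℕ, ∃ b : ℕ,
    (((Kv z (idx1 q.1.2 q.1.1) = 1 ∧ s = q.1.2.1) ∨
      (¬ Kv z (idx1 q.1.2 q.1.1) = 1 ∧ U z ((q.1.2, q.1.1), s))) ∧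
    ((Kv z (idx0 (nd s.length)) = 1 ∧ b = 1) ∨ (¬ Kv z (idx0 (nd s.length)) = 1 ∧ b = 0))) ∧
    ((Kv z (idx0 (nd q.1.1)) = 1 ∧ q.2 = (s ++ [b], q.1.2.2)) ∨
      (¬ Kv z (idx0 (nd q.1.1)) = 1 ∧ q.2 = (s ++ [b], nd q.1.1 :: q.1.2.2)))

/-- The type of the arguments of the body of the step relation. -/
abbrev StepArg : Type := (((ℕ × Cond) × Cond) × List ℕ) × ℕ

theorem primrec_argT : Primrec fun r : StepArg => r.1.1.1.1 := fst.comp (fst.comp (fst.comp fst))

theorem primrec_argC : Primrec fun r : StepArg => r.1.1.1.2 := snd.comp (fst.comp (fst.comp fst))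

theorem primrec_argC' : Primrec fun r : StepArg => r.1.1.2 := snd.comp (fst.comp fst)

theorem primrec_argS : Primrec fun r : StepArg => r.1.2 := snd.comp fst

theorem primrec_argSB : Primrec fun r : StepArg => r.1.2 ++ [r.2] :=
  list_concat.comp primrec_argS snd

theorem primrec_argI1 : Primrec fun r : StepArg => idx1 r.1.1.1.2 r.1.1.1.1 :=
  primrec_idx1.comp primrec_argC primrec_argT

theorem primrec_argI2 : Primrec fun r : StepArg => idx0 (nd r.1.2.length) :=
  primrec_idx0.comp (primrec_nd.comp (list_length.comp primrec_argS))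

theorem primrec_argI3 : Primrec fun r : StepArg => idx0 (nd r.1.1.1.1) :=
  primrec_idx0.comp (primrec_nd.comp primrec_argT)

theorem s01_piece1 : S01 (fun z (r : StepArg) => Kv z (idx1 r.1.1.1.2 r.1.1.1.1) = 1 ∧
    r.1.2 = r.1.1.1.2.1) := by
  have h : PrimrecPred fun r : StepArg => r.1.2 = r.1.1.1.2.1 :=
    Primrec.eq.comp primrec_argS (fst.comp primrec_argC)
  exact (s01_Kv primrec_argI1).and (S01.of_primrec h)

theorem s01_piece2 {U : (ℕ → ℕ) → (Cond × ℕ) × List ℕ → Prop} (hU : S01 U) :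
    S01 (fun z (r : StepArg) => ¬ Kv z (idx1 r.1.1.1.2 r.1.1.1.1) = 1 ∧
      U z ((r.1.1.1.2, r.1.1.1.1), r.1.2)) := by
  have h : Primrec fun r : StepArg => ((r.1.1.1.2, r.1.1.1.1), r.1.2) :=
    (primrec_argC.pair primrec_argT).pair primrec_argS
  exact (s01_not_Kv primrec_argI1).and (hU.comp h)

theorem s01_piece3 : S01 (fun z (r : StepArg) =>
    (Kv z (idx0 (nd r.1.2.length)) = 1 ∧ r.2 = 1) ∨
        (¬ Kv z (idx0 (nd r.1.2.length)) = 1 ∧ r.2 = 0)) := by
  have h1 : PrimrecPred fun r : StepArg => r.2 = 1 := Primrec.eq.comp snd (Primrec.const 1)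
  have h2 : PrimrecPred fun r : StepArg => r.2 = 0 := Primrec.eq.comp snd (Primrec.const 0)
  exact ((s01_Kv primrec_argI2).and (S01.of_primrec h1)).or
    ((s01_not_Kv primrec_argI2).and (S01.of_primrec h2))

theorem s01_piece4 : S01 (fun z (r : StepArg) => Kv z (idx0 (nd r.1.1.1.1)) = 1 ∧
    r.1.1.2 = (r.1.2 ++ [r.2], r.1.1.1.2.2)) := by
  have h0 : Primrec fun r : StepArg => (r.1.2 ++ [r.2], r.1.1.1.2.2) :=
    primrec_argSB.pair (snd.comp primrec_argC)
  have h : PrimrecPred fun r : StepArg => r.1.1.2 = (r.1.2 ++ [r.2], r.1.1.1.2.2) :=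
    Primrec.eq.comp primrec_argC' h0
  exact (s01_Kv primrec_argI3).and (S01.of_primrec h)

theorem s01_piece5 : S01 (fun z (r : StepArg) => ¬ Kv z (idx0 (nd r.1.1.1.1)) = 1 ∧
    r.1.1.2 = (r.1.2 ++ [r.2], nd r.1.1.1.1 :: r.1.1.1.2.2)) := by
  have h1 : Primrec fun r : StepArg => nd r.1.1.1.1 :: r.1.1.1.2.2 :=
    list_cons.comp (primrec_nd.comp primrec_argT) (snd.comp primrec_argC)
  have h0 : Primrec fun r : StepArg => (r.1.2 ++ [r.2], nd r.1.1.1.1 :: r.1.1.1.2.2) :=
    primrec_argSB.pair h1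
  have h : PrimrecPred fun r : StepArg => r.1.1.2 =
      (r.1.2 ++ [r.2], nd r.1.1.1.1 :: r.1.1.1.2.2) :=
    Primrec.eq.comp primrec_argC' h0
  exact (s01_not_Kv primrec_argI3).and (S01.of_primrec h)

theorem s01_StepR {U : (ℕ → ℕ) → (Cond × ℕ) × List ℕ → Prop} (hU : S01 U) :
    S01 (StepR U) := by
  have key := ((s01_piece1.or (s01_piece2 hU)).and s01_piece3).and (s01_piece4.or s01_piece5)
  have key1 : S01 (fun z (q : ((ℕ × Cond) × Cond) × List ℕ) => ∃ b : ℕ,
      (((Kv z (idx1 q.1.1.2 q.1.1.1) = 1 ∧ q.2 = q.1.1.2.1) ∨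
        (¬ Kv z (idx1 q.1.1.2 q.1.1.1) = 1 ∧ U z ((q.1.1.2, q.1.1.1), q.2))) ∧
      ((Kv z (idx0 (nd q.2.length)) = 1 ∧ b = 1) ∨ (¬ Kv z (idx0 (nd q.2.length)) = 1 ∧ b = 0))) ∧
      ((Kv z (idx0 (nd q.1.1.1)) = 1 ∧ q.1.2 = (q.2 ++ [b], q.1.1.2.2)) ∨
        (¬ Kv z (idx0 (nd q.1.1.1)) = 1 ∧ q.1.2 = (q.2 ++ [b], nd q.1.1.1 :: q.1.1.2.2)))) :=
    key.ex
  exact key1.ex

/-- The facts about the oracle used in the construction. -/
structure GoodZ (PT : (ℕ × ℕ) × List ℕ → Prop) (L : Set (List ℕ)) (x z : ℕ → ℕ) : Prop where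
  /-- the even part of the oracle is the even part of `x` -/
  even : ∀ k, z (2 * k) = x (2 * k)
  /-- `L` is the largest perfect subtree -/
  lar : largest (oddTree x) = L
  /-- the answers are correct -/
  ans : ∀ q, Kv z q = 1 ↔ DQ PT x q

/-- Invariant of conditions. -/
structure Inv (L : Set (List ℕ)) (c : Cond) : Prop where
  zero : ∀ i < c.1.length, (c.1.getD i 0 = 0 ∧ nd i ∉ L) ∨
    (c.1.getD i 0 = 1 ∧ ∀ j < i, nd j <+: nd i → c.1.getD j 0 = 1)
  froz : ∀ τ ∈ c.2, τ ∉ L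

/-- The extension relation. -/
def Ext (L : Set (List ℕ)) (c : Cond) (s : List ℕ) : Prop :=
  c.1 <+: s ∧ ∀ i < s.length, c.1.length ≤ i → ((s.getD i 0 = 0 ∧ nd i ∉ L) ∨
    (s.getD i 0 = 1 ∧ ((∀ τ ∈ c.2, ¬ τ <+: nd i) ∧ ∀ j < i, nd j <+: nd i → s.getD j 0 = 1)))

theorem getD_of_isPrefix {s s' : List ℕ} (h : s <+: s') {i : ℕ} (hi : i < s.length) :
    s'.getD i 0 = s.getD i 0 := by
  obtain ⟨t, rfl⟩ := h
  rw [List.getD_append _ _ _ _ hi]

theorem Inv.ext {L : Set (List ℕ)} {c : Cond} (hc : Inv L c) {s : List ℕ} (h : Ext L c s) :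
    Inv L (s, c.2) := by
  refine ⟨fun i hi => ?_, hc.froz⟩
  by_cases h1 : c.1.length ≤ i
  · rcases h.2 i hi h1 with h2 | h2
    · exact Or.inl h2
    · exact Or.inr ⟨h2.1, h2.2.2⟩
  · rw [not_le] at h1
    have h2 := getD_of_isPrefix h.1 h1
    simp only
    rw [h2]
    rcases hc.zero i h1 with h3 | h3
    · exact Or.inl h3
    · refine Or.inr ⟨h3.1, fun j hj hji => ?_⟩
      rw [getD_of_isPrefix h.1 (by omega)]
      exact h3.2 j hj hji

theorem Ext.refl (L : Set (List ℕ)) (c : Cond) : Ext L c c.1 :=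
  ⟨List.prefix_rfl, fun i hi h => absurd hi (not_lt.mpr h)⟩

theorem getD_concat_length (s : List ℕ) (b : ℕ) : (s ++ [b]).getD s.length 0 = b := by
  simp [List.getD]

/-- Adding one correct bit. -/
theorem Ext.concat {L : Set (List ℕ)} (hL : IsTree L) {c : Cond} (hc : Inv L c) {s : List ℕ}
    (h : Ext L c s) {b : ℕ} (hb : (nd s.length ∈ L ∧ b = 1) ∨ (nd s.length ∉ L ∧ b = 0)) :
    Ext L c (s ++ [b]) := by
  have hinv := hc.ext h
  refine ⟨h.1.trans (List.prefix_append _ _), fun i hi h1 => ?_⟩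
  rw [List.length_append, List.length_singleton] at hi
  have hpre : s <+: s ++ [b] := List.prefix_append _ _
  rcases Nat.lt_succ_iff_lt_or_eq.mp hi with h2 | h2
  · rw [getD_of_isPrefix hpre h2]
    rcases h.2 i h2 h1 with h3 | h3
    · exact Or.inl h3
    · refine Or.inr ⟨h3.1, h3.2.1, fun j hj hji => ?_⟩
      rw [getD_of_isPrefix hpre (by omega)]
      exact h3.2.2 j hj hji
  · subst h2
    rw [getD_concat_length]
    rcases hb with ⟨hb1, hb2⟩ | ⟨hb1, hb2⟩
    · refine Or.inr ⟨hb2, fun τ hτ hτi => hc.froz τ hτ (hL _ _ hτi hb1), fun j hj hji => ?_⟩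
      rw [getD_of_isPrefix hpre hj]
      rcases hinv.zero j hj with h3 | h3
      · exact absurd (hL _ _ hji hb1) h3.2
      · exact h3.1
    · exact Or.inl ⟨hb2, hb1⟩

section Limit

variable {PT : (ℕ × ℕ) × List ℕ → Prop} {L : Set (List ℕ)} {x z : ℕ → ℕ}
  {U : (ℕ → ℕ) → (Cond × ℕ) × List ℕ → Prop}

theorem GoodZ.tree (hz : GoodZ PT L x z) : IsTree L := by
  rw [← hz.lar]
  exact (isPerfectTree_largest _).1

theorem GoodZ.idx0 (hz : GoodZ PT L x z) (σ : List ℕ) :
    Kv z (idx0 σ) = 1 ↔ σ ∈ L := by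
  rw [hz.ans, DQ_idx0, hz.lar]

theorem GoodZ.idx1 (hz : GoodZ PT L x z) (c : Cond) (t : ℕ) :
    Kv z (idx1 c t) = 1 ↔ D1 PT x (c, t) := by
  rw [hz.ans, DQ_idx1]

theorem GoodZ.rv_iff (hz : GoodZ PT L x z) (c : Cond) (t : ℕ) (s : List ℕ) :
    RV PT z ((c, t), s) ↔
      Ext L c s ∧ Ev PT (t.unpair, pre (fun k => x (2 * k)) s.length, s) := by
  have he : (fun k => z (2 * k)) = fun k => x (2 * k) := funext hz.even
  simp only [RV, he, hz.idx0]
  constructor
  · rintro ⟨⟨h1, h2⟩, h3⟩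
    refine ⟨⟨h1.1, fun i hi hci => ?_⟩, h2⟩
    rcases h1.2 i hi hci with h4 | h4
    · rcases h3 i hi with h5 | h5
      · exact absurd ⟨hci, h4⟩ h5
      · exact Or.inl ⟨h4, h5⟩
    · exact Or.inr h4
  · rintro ⟨h1, h2⟩
    refine ⟨⟨⟨h1.1, fun i hi hci => ?_⟩, h2⟩, fun i hi => ?_⟩
    · rcases h1.2 i hi hci with h4 | h4
      · exact Or.inl h4.1
      · exact Or.inr h4
    · by_cases h4 : c.1.length ≤ i ∧ s.getD i 0 = 0
      · right
        rcases h1.2 i hi h4.1 with h5 | h5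
        · exact h5.2
        · have := h4.2
          rw [h5.1] at this
          cases this
      · exact Or.inl h4

theorem GoodZ.d1_iff (hz : GoodZ PT L x z) (c : Cond) (t : ℕ) :
    D1 PT x (c, t) ↔ ¬ ∃ s, RV PT z ((c, t), s) := by
  constructor
  · rintro h ⟨s, hs⟩
    rw [hz.rv_iff] at hs
    rcases h s with h1 | ⟨i, ⟨h1, h2, h3⟩, h4⟩
    · apply h1
      refine ⟨⟨hs.1.1, fun i hi hci => ?_⟩, hs.2⟩
      rcases hs.1.2 i hi hci with h4 | h4
      · exact Or.inl h4.1
      · exact Or.inr h4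
    · rw [hz.lar] at h4
      rcases hs.1.2 i h1 h2 with h5 | h5
      · exact h5.2 h4
      · rw [h5.1] at h3
        cases h3
  · intro h s
    by_contra hcon
    push Not at hcon
    apply h
    refine ⟨s, (hz.rv_iff c t s).mpr ⟨⟨hcon.1.1.1, fun i hi hci => ?_⟩, hcon.1.2⟩⟩
    rcases hcon.1.1.2 i hi hci with h4 | h4
    · left
      refine ⟨h4, ?_⟩
      have := hcon.2 i ⟨hi, hci, h4⟩
      rwa [hz.lar] at this
    · exact Or.inr h4

/-- The properties of a step. -/
theorem GoodZ.step (hz : GoodZ PT L x z)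
    (hU1 : ∀ z a b, U z (a, b) → RV PT z (a, b)) {t : ℕ} {c c' : Cond} (hc : Inv L c)
    (h : StepR U z ((t, c), c')) :
    Ext L c c'.1 ∧ Inv L c' ∧ c.1.length < c'.1.length ∧ (∀ τ ∈ c.2, τ ∈ c'.2) ∧
      (nd t ∉ L → nd t ∈ c'.2) ∧
      (D1 PT x (c, t) ∨ ∃ s, s <+: c'.1 ∧ Ext L c s ∧
        Ev PT (t.unpair, pre (fun k => x (2 * k)) s.length, s)) := by
  obtain ⟨s, b, ⟨h1, h2⟩, h3⟩ := h
  simp only at h1 h2 h3
  rw [hz.idx1] at h1
  rw [hz.idx0] at h2 h3
  have hext : Ext L c s ∧ (D1 PT x (c, t) ∨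
      Ev PT (t.unpair, pre (fun k => x (2 * k)) s.length, s)) := by
    rcases h1 with ⟨h4, rfl⟩ | ⟨h4, h5⟩
    · exact ⟨Ext.refl L c, Or.inl h4⟩
    · have h6 := (hz.rv_iff _ _ _).mp (hU1 _ _ _ h5)
      exact ⟨h6.1, Or.inr h6.2⟩
  have hcat := hext.1.concat hz.tree hc h2
  have hinv := hc.ext hcat
  have hlen : c.1.length < (s ++ [b]).length := by
    rw [List.length_append, List.length_singleton]
    have := hext.1.1.length_le
    omega
  have hlast : D1 PT x (c, t) ∨ ∃ s', s' <+: s ++ [b] ∧ Ext L c s' ∧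
      Ev PT (t.unpair, pre (fun k => x (2 * k)) s'.length, s') := by
    rcases hext.2 with h4 | h4
    · exact Or.inl h4
    · exact Or.inr ⟨s, List.prefix_append _ _, hext.1, h4⟩
  rcases h3 with ⟨h4, rfl⟩ | ⟨h4, rfl⟩
  · exact ⟨hcat, hinv, hlen, fun τ hτ => hτ, fun h5 => absurd h4 h5, hlast⟩
  · refine ⟨hcat, ⟨hinv.zero, ?_⟩, hlen, fun τ hτ => List.mem_cons_of_mem _ hτ,
      fun _ => List.mem_cons_self, hlast⟩
    intro τ hτ
    rcases List.mem_cons.mp hτ with h5 | h5
    · rw [h5]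
      exact h4
    · exact hc.froz τ h5

/-- The step relation is functional and total. -/
theorem GoodZ.exists_step (hz : GoodZ PT L x z)
    (hU1 : ∀ z a b, U z (a, b) → RV PT z (a, b))
    (hU2 : ∀ z a b b', U z (a, b) → U z (a, b') → b = b')
    (hU3 : ∀ z a b, RV PT z (a, b) → ∃ b', U z (a, b')) (t : ℕ) (c : Cond) :
    ∃ c', ∀ c'', StepR U z ((t, c), c'') ↔ c'' = c' := by
  -- the extension
  have h1 : ∃ s, ∀ s', ((Kv z (MP_a7e1fe_lc.idx1 c t) = 1 ∧ s' = c.1) ∨
      (¬ Kv z (MP_a7e1fe_lc.idx1 c t) = 1 ∧ U z ((c, t), s'))) ↔ s' = s := by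
    by_cases h : Kv z (MP_a7e1fe_lc.idx1 c t) = 1
    · exact ⟨c.1, fun s' => by simp [h]⟩
    · have h2 : ∃ s, RV PT z ((c, t), s) := by
        rw [hz.idx1, hz.d1_iff, not_not] at h
        exact h
      obtain ⟨s, hs⟩ := h2
      obtain ⟨s1, hs1⟩ := hU3 _ _ _ hs
      refine ⟨s1, fun s' => ?_⟩
      constructor
      · rintro (⟨h3, -⟩ | ⟨-, h3⟩)
        · exact absurd h3 h
        · exact hU2 _ _ _ _ h3 hs1
      · rintro rfl
        exact Or.inr ⟨h, hs1⟩
  obtain ⟨s, hs⟩ := h1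
  have h2 : ∃ b, ∀ b', ((Kv z (MP_a7e1fe_lc.idx0 (nd s.length)) = 1 ∧ b' = 1) ∨
      (¬ Kv z (MP_a7e1fe_lc.idx0 (nd s.length)) = 1 ∧ b' = 0)) ↔ b' = b := by
    by_cases h : Kv z (MP_a7e1fe_lc.idx0 (nd s.length)) = 1
    · exact ⟨1, fun s' => by simp [h]⟩
    · exact ⟨0, fun s' => by simp [h]⟩
  obtain ⟨b, hb⟩ := h2
  have h3 : ∃ c', ∀ c'', ((Kv z (MP_a7e1fe_lc.idx0 (nd t)) = 1 ∧ c'' = (s ++ [b], c.2)) ∨
      (¬ Kv z (MP_a7e1fe_lc.idx0 (nd t)) = 1 ∧ c'' = (s ++ [b], nd t :: c.2))) ↔ c'' = c' := by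
    by_cases h : Kv z (MP_a7e1fe_lc.idx0 (nd t)) = 1
    · exact ⟨_, fun s' => by simp only [h, true_and, not_true_eq_false, false_and, or_false]; rfl⟩
    · exact ⟨_, fun s' => by simp only [h, true_and, not_false_eq_true, false_and, false_or]; rfl⟩
  obtain ⟨c', hc'⟩ := h3
  refine ⟨c', fun c'' => ?_⟩
  constructor
  · rintro ⟨s', b', ⟨h4, h5⟩, h6⟩
    have h7 := (hs s').mp h4
    subst h7
    have h8 := (hb b').mp h5
    subst h8
    exact (hc' c'').mp h6
  · rintro rfl
    exact ⟨s, b, ⟨(hs s).mpr rfl, (hb b).mpr rfl⟩, (hc' _).mpr rfl⟩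

end Limit

/-- The outcome of the construction. -/
theorem exists_construction {PT : (ℕ × ℕ) × List ℕ → Prop} (hPT : PrimrecPred PT)
    (hmono : ∀ z a n m, n ≤ m → PT (a, pre z n) → PT (a, pre z m)) :
    ∃ (GS : (ℕ → ℕ) → ℕ × ℕ → Prop) (NQ : (ℕ → ℕ) → ℕ → Prop), S01 GS ∧ S01 NQ ∧
      ∀ L x z, GoodZ PT L x z → ∃ S : ℕ → ℕ, IsGraph GS z S ∧
        (∀ i, S i = 0 ∨ S i = 1) ∧
        IsTree {σ | S (encode σ) = 1} ∧ L ⊆ {σ | S (encode σ) = 1} ∧
        (∀ σ, σ ∉ L → {τ | τ ∈ {σ | S (encode σ) = 1} ∧ σ <+: τ}.Finite) ∧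
        ∀ k N, NQ z (Nat.pair k N) ↔ ¬ ∃ n > N, ∃ v v', v ≠ v' ∧
          (∃ m, PT ((Nat.pair N k, v), pre (join (fun k => x (2 * k)) S) m)) ∧
          (∃ m, PT ((Nat.pair n k, v'), pre (join (fun k => x (2 * k)) S) m)) := by
  obtain ⟨U, hU, hU1, hU2, hU3⟩ := (s01_RV hPT).unif
  obtain ⟨It, hIt, hIt'⟩ := (s01_StepR hU).iter ([], [])
  refine ⟨fun z q => ∃ r : ℕ × Cond, It z r ∧ (q.1 < r.2.1.length ∧ r.2.1.getD q.1 0 = q.2),
    fun z t => ∃ c : Cond, It z (t, c) ∧ Kv z (idx1 c t) = 1, ?_, ?_, ?_⟩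
  · have h1 : S01 (fun z (q : (ℕ × ℕ) × (ℕ × Cond)) => It z q.2 ∧
        (q.1.1 < q.2.2.1.length ∧ q.2.2.1.getD q.1.1 0 = q.1.2)) := by
      refine (hIt.comp snd).and (S01.of_primrec (PrimrecPred.and ?_ ?_))
      · exact nat_lt.comp (fst.comp fst) (list_length.comp (fst.comp (snd.comp snd)))
      · exact Primrec.eq.comp ((list_getD 0).comp (fst.comp (snd.comp snd)) (fst.comp fst))
          (snd.comp fst)
    exact h1.ex
  · have h1 : S01 (fun z (q : ℕ × Cond) => It z q ∧ Kv z (idx1 q.2 q.1) = 1) :=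
      hIt.and (s01_Kv (primrec_idx1.comp snd fst))
    exact h1.ex
  · intro L x z hz
    -- the sequence of conditions
    have hstep := hz.exists_step (U := U) hU1 hU2 hU3
    choose F hF using hstep
    let st : ℕ → Cond := fun t => Nat.rec ([], []) (fun t c => F t c) t
    have hst : ∀ t c', StepR U z ((t, st t), c') ↔ c' = st (t + 1) := fun t c' => hF t (st t) c'
    have hItst := hIt' z st rfl hst
    have hInv : ∀ t, Inv L (st t) := by
      intro t
      induction t with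
      | zero =>
        exact ⟨fun i hi => absurd hi (Nat.not_lt_zero i), fun τ hτ => absurd hτ (by simp [st])⟩
      | succ t IH => exact (hz.step hU1 IH ((hst t _).mpr rfl)).2.1
    have hprop := fun t => hz.step hU1 (hInv t) ((hst t _).mpr rfl)
    have hlen : ∀ t, t ≤ (st t).1.length := by
      intro t
      induction t with
      | zero => exact Nat.zero_le _
      | succ t IH => exact lt_of_le_of_lt IH (hprop t).2.2.1
    have hst0 : (st 0).1.length = 0 := rfl
    clear_value st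
    obtain ⟨S, hS⟩ := exists_limit (fun t => (st t).1) (fun t => (hprop t).1.1) hlen
    have hS : ∀ t, (st t).1 = pre S (st t).1.length := hS
    have hmonoE : ∀ t t', t ≤ t' → ∀ τ ∈ (st t).2, τ ∈ (st t').2 := by
      intro t t' h
      induction t', h using Nat.le_induction with
      | base => exact fun τ hτ => hτ
      | succ n _ IH => exact fun τ hτ => (hprop n).2.2.2.1 τ (IH τ hτ)
    have hSget : ∀ t i, i < (st t).1.length → (st t).1.getD i 0 = S i := by
      intro t i hi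
      rw [hS t, pre_getD S 0 _ _ (by simpa using hi)]
    have hmonoL : ∀ t t', t ≤ t' → (st t).1.length ≤ (st t').1.length := by
      intro t t' h
      induction t', h using Nat.le_induction with
      | base => exact le_rfl
      | succ n _ IH => exact IH.trans (hprop n).2.2.1.le
    -- the bits of `S` beyond a stage
    have hbits : ∀ t i, (st t).1.length ≤ i → (S i = 0 ∧ nd i ∉ L) ∨
        (S i = 1 ∧ (∀ τ ∈ (st t).2, ¬ τ <+: nd i) ∧ ∀ j < i, nd j <+: nd i → S j = 1) := by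
      intro t i hi
      -- the stage at which `i` is decided
      have hex : ∃ t', i < (st t').1.length := ⟨i + 1, hlen (i + 1)⟩
      classical
      have h1 := Nat.find_spec hex
      have h0 : Nat.find hex ≠ 0 := by
        intro h
        rw [h, hst0] at h1
        exact absurd h1 (Nat.not_lt_zero _)
      obtain ⟨t', ht'⟩ : ∃ t', Nat.find hex = t' + 1 := ⟨Nat.find hex - 1, by omega⟩
      have h2 : (st t').1.length ≤ i := by
        by_contra hcon
        rw [not_le] at hcon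
        exact Nat.find_min hex (by omega) hcon
      rw [ht'] at h1
      have htt' : t ≤ t' := by
        by_contra hcon
        rw [not_le] at hcon
        have := hmonoL (t' + 1) t hcon
        have h3 : i < (st (t' + 1)).1.length := h1
        omega
      rcases (hprop t').1.2 i h1 h2 with h3 | h3
      · left
        rw [hSget _ _ h1] at h3
        exact h3
      · right
        rw [hSget _ _ h1] at h3
        refine ⟨h3.1, fun τ hτ => h3.2.1 τ (hmonoE t t' htt' τ hτ), fun j hj hji => ?_⟩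
        have h4 := h3.2.2 j hj hji
        rwa [hSget _ _ (by have : i < (st (t' + 1)).1.length := h1; omega)] at h4
    have hbits0 : ∀ i, (S i = 0 ∧ nd i ∉ L) ∨ (S i = 1 ∧ ∀ j < i, nd j <+: nd i → S j = 1) := by
      intro i
      rcases hbits 0 i (by rw [hst0]; exact Nat.zero_le _) with h | h
      · exact Or.inl h
      · exact Or.inr ⟨h.1, h.2.2⟩
    have hgraph : IsGraph (fun z q => ∃ r : ℕ × Cond, It z r ∧ (q.1 < r.2.1.length ∧
        r.2.1.getD q.1 0 = q.2)) z S := by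
      intro n v
      constructor
      · rintro ⟨⟨t, c⟩, h1, h2, h3⟩
        have h4 := (hItst t c).mp h1
        subst h4
        simp only at h2 h3
        rw [hSget _ _ h2] at h3
        exact h3.symm
      · rintro rfl
        refine ⟨(n + 1, st (n + 1)), (hItst _ _).mpr rfl, hlen (n + 1), ?_⟩
        exact hSget _ _ (hlen (n + 1))
    have hpreExt : ∀ t m, (st t).1.length ≤ m → Ext L (st t) (pre S m) := by
      intro t m hm
      refine ⟨?_, fun i hi hci => ?_⟩
      · rw [hS t]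
        exact pre_isPrefix S hm
      · rw [length_pre] at hi
        rw [pre_getD S 0 _ _ hi]
        rcases hbits t i hci with h | h
        · exact Or.inl h
        · refine Or.inr ⟨h.1, h.2.1, fun j hj hji => ?_⟩
          rw [pre_getD S 0 _ _ (by omega)]
          exact h.2.2 j hj hji
    refine ⟨S, hgraph, ?_, ?_, ?_, ?_, ?_⟩
    · intro i
      rcases hbits0 i with h | h
      · exact Or.inl h.1
      · exact Or.inr h.1
    · intro σ τ h hτ
      have hτ' : S (encode τ) = 1 := hτ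
      show S (encode σ) = 1
      rcases Nat.lt_or_eq_of_le (encode_le_of_isPrefix h) with h1 | h1
      · rcases hbits0 (encode τ) with h2 | h2
        · rw [h2.1] at hτ'
          cases hτ'
        · exact h2.2 _ h1 (by simpa using h)
      · rw [h1]
        exact hτ'
    · intro σ hσ
      show S (encode σ) = 1
      rcases hbits0 (encode σ) with h2 | h2
      · rw [nd_encode] at h2
        exact absurd hσ h2.2
      · exact h2.1
    · intro σ hσ
      have h1 : σ ∈ (st (encode σ + 1)).2 := by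
        have := (hprop (encode σ)).2.2.2.2.1
        rw [nd_encode] at this
        exact this hσ
      refine ((Set.finite_lt_nat (st (encode σ + 1)).1.length).image nd).subset ?_
      rintro τ ⟨h2, h3⟩
      refine ⟨encode τ, ?_, nd_encode τ⟩
      by_contra hcon
      have hcon' : (st (encode σ + 1)).1.length ≤ encode τ := not_lt.mp hcon
      have h2' : S (encode τ) = 1 := h2
      rcases hbits _ _ hcon' with h4 | h4
      · rw [h4.1] at h2'
        cases h2'
      · apply h4.2.1 σ h1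
        rw [nd_encode]
        exact h3
    · intro k N
      have hNQ : (∃ c : Cond, It z (Nat.pair k N, c) ∧ Kv z (idx1 c (Nat.pair k N)) = 1) ↔
          D1 PT x (st (Nat.pair k N), Nat.pair k N) := by
        rw [← hz.idx1]
        constructor
        · rintro ⟨c, h1, h2⟩
          rw [(hItst _ _).mp h1] at h2
          exact h2
        · intro h
          exact ⟨_, (hItst _ _).mpr rfl, h⟩
      refine Iff.trans hNQ ?_
      constructor
      · rintro hD ⟨n, hn, v, v', hvv, ⟨m1, hm1⟩, ⟨m2, hm2⟩⟩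
        rw [hz.d1_iff] at hD
        apply hD
        let m := (st (Nat.pair k N)).1.length + m1 + m2 + (Nat.pair n (Nat.pair v v') + 1)
        refine ⟨pre S m, (hz.rv_iff _ _ _).mpr ⟨hpreExt _ _ (by omega), ?_⟩⟩
        refine ⟨Nat.pair n (Nat.pair v v'), by simp only [length_pre]; omega, ?_⟩
        simp only [length_pre, Nat.unpair_pair]
        refine ⟨⟨hn, hvv⟩, ?_, ?_⟩
        · rw [joinL_pre _ _ le_rfl le_rfl]
          exact hmono _ _ _ _ (by omega) hm1
        · rw [joinL_pre _ _ le_rfl le_rfl]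
          exact hmono _ _ _ _ (by omega) hm2
      · intro hno
        rcases (hprop (Nat.pair k N)).2.2.2.2.2 with h1 | ⟨s, hs1, hs2, e, he1, ⟨he2, he3⟩, he4⟩
        · exact h1
        · exfalso
          simp only [Nat.unpair_pair] at he2 he3 he4
          have hsS : s = pre S s.length := by
            rw [hS] at hs1
            exact eq_pre_of_isPrefix hs1
          apply hno
          refine ⟨e.unpair.1, he2, _, _, he3, ⟨2 * s.length, ?_⟩, ⟨2 * s.length, ?_⟩⟩
          · have h2 := he4.1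
            rw [hsS, length_pre, joinL_pre _ _ le_rfl le_rfl] at h2
            exact h2
          · have h2 := he4.2
            rw [hsS, length_pre, joinL_pre _ _ le_rfl le_rfl] at h2
            exact h2

end Pool.Agent.Lib.MP_a7e1fe_lc
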