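import Pool.Agent.Lib.MP_a8cc1b_lc.Konig

/-!
# Initial segments and the topology of Baire space
-/

open Set Filter Topology
open Pool.Agent.Lib.MP_a8cc1b_lc

namespace Pool.Agent.Lib.MP_a7e1fe_lc

theorem pre_eq_iff {β : Type} {g h : ℕ → β} {n : ℕ} : pre g n = pre h n ↔ ∀ i < n, g i = h i := by
  simp [pre, List.map_inj_left]

theorem pre_isPrefix {β : Type} (g : ℕ → β) {m n : ℕ} (h : m ≤ n) : pre g m <+: pre g n := by
  rw [← pre_take g n m h]
  exact List.take_prefix _ _

theorem eq_pre_of_isPrefix {β : Type} {g : ℕ → β} {σ : List β} {n : ℕ} (h : σ <+: pre g n) :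
    σ = pre g σ.length := by
  have h1 := h.length_le
  rw [length_pre] at h1
  conv_lhs => rw [List.prefix_iff_eq_take.mp h]
  exact pre_take g n _ h1

theorem mem_nhds_iff_pre {U : Set (ℕ → ℕ)} {g : ℕ → ℕ} :
    U ∈ 𝓝 g ↔ ∃ n, ∀ h : ℕ → ℕ, pre h n = pre g n → h ∈ U := by
  rw [(PiNat.isTopologicalBasis_cylinders (fun _ : ℕ => ℕ)).mem_nhds_iff]
  constructor
  · rintro ⟨t, ⟨x, n, rfl⟩, hg, hU⟩
    refine ⟨n, fun h hh => hU ?_⟩
    intro i hi
    rw [pre_eq_iff.mp hh i hi]
    exact hg i hi
  · rintro ⟨n, hn⟩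
    refine ⟨PiNat.cylinder g n, ⟨g, n, rfl⟩, PiNat.self_mem_cylinder _ _, ?_⟩
    intro h hh
    exact hn h (pre_eq_iff.mpr fun i hi => hh i hi)

/-- A chain of finite sequences of growing length has a limit. -/
theorem exists_limit {β : Type} [Inhabited β] (τ : ℕ → List β) (hpre : ∀ n, τ n <+: τ (n + 1))
    (hlen : ∀ n, n ≤ (τ n).length) : ∃ g : ℕ → β, ∀ n, τ n = pre g (τ n).length := by
  have hmono : ∀ m n, m ≤ n → τ m <+: τ n := by
    intro m n hmn
    induction n, hmn using Nat.le_induction with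
    | base => exact List.prefix_rfl
    | succ n _ IH => exact IH.trans (hpre n)
  refine ⟨fun i => (τ (i + 1)).getD i default, fun n => ?_⟩
  apply List.ext_getElem
  · simp
  · intro i h1 h2
    have h3 : i < (τ (i + 1)).length := hlen (i + 1)
    simp only [pre, List.getElem_map, List.getElem_range]
    rw [List.getD_eq_getElem _ _ h3]
    rcases le_total n (i + 1) with h | h
    · exact (hmono _ _ h).getElem h1
    · exact ((hmono _ _ h).getElem h3).symm

theorem comparable_pre {β : Type} (g : ℕ → β) (m n : ℕ) :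
    pre g m <+: pre g n ∨ pre g n <+: pre g m := by
  rcases le_total m n with h | h
  · exact Or.inl (pre_isPrefix g h)
  · exact Or.inr (pre_isPrefix g h)

theorem encode_le_of_isPrefix {σ τ : List ℕ} (h : σ <+: τ) :
    Encodable.encode σ ≤ Encodable.encode τ := by
  induction τ generalizing σ with
  | nil =>
    rw [List.prefix_nil] at h
    rw [h]
  | cons b τ IH =>
    rcases σ with _ | ⟨a, σ⟩
    · simp
    · rw [List.cons_prefix_cons] at h
      obtain ⟨rfl, h⟩ := h
      rw [Encodable.encode_list_cons, Encodable.encode_list_cons]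
      apply Nat.succ_le_succ
      rcases Nat.lt_or_eq_of_le (IH h) with h1 | h1
      · exact (Nat.pair_lt_pair_right _ h1).le
      · rw [h1]

end Pool.Agent.Lib.MP_a7e1fe_lc
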