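import Pool.Agent.Lib.MP_a7e1fe_lc.S01
import Pool.Agent.Lib.MP_a7e1fe_lc.Seq

/-!
# Represented spaces, Weihrauch reducibility and the perfect kernel problems
-/

open Set
open Pool.Agent.Lib.MP_a8cc1b_lc

namespace Pool.Agent.Lib.MP_a7e1fe_lc

/-- A represented space: a set of points, named by elements of `ℕ^ℕ`, such that every point has a
name and every element of `ℕ^ℕ` names at most one point. -/
structure RepSpace where
  /-- the points -/
  Point : Type
  /-- `Names p x` means that `p` is a name of the point `x` -/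
  Names : (ℕ → ℕ) → Point → Prop
  unique : ∀ p x x', Names p x → Names p x' → x = x'
  total : ∀ x, ∃ p, Names p x

/-- A problem: a partial multivalued function between represented spaces. `f x y` means that `y` is
one of the values of `f` at `x`. -/
def Problem (X Y : RepSpace) : Type := X.Point → Y.Point → Prop

/-- The domain of a problem: the points with at least one value. -/
def Problem.dom {X Y : RepSpace} (f : Problem X Y) : Set X.Point := {x | ∃ y, f x y}

/-- The composition `f ∘ g` of multivalued functions: `x` is in its domain if `x` is in the domain of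
`g` and all values of `g` at `x` are in the domain of `f`; its values at `x` are then the values of
`f` at the values of `g` at `x`. -/
def Problem.comp {X Y Z : RepSpace} (f : Problem Y Z) (g : Problem X Y) : Problem X Z :=
  fun x z => (∀ y, g x y → y ∈ f.dom) ∧ ∃ y, g x y ∧ f y z

/-- The pairing `⟨p, q⟩` of elements of `ℕ^ℕ`: the even entries are those of `p` and the odd ones
those of `q`. -/
def join (p q : ℕ → ℕ) : ℕ → ℕ := fun n => if n % 2 = 0 then p (n / 2) else q (n / 2)

/-- The oracle machine described by `φ` (see `Outputs`) computes `q` from the oracle `p`. -/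
def Computes (φ : List ℕ × ℕ → Option ℕ) (p q : ℕ → ℕ) : Prop := ∀ n, Outputs φ p n (q n)

/-- Weihrauch reducibility `f ≤_W g`. -/
def WLe {X Y X' Y' : RepSpace} (f : Problem X Y) (g : Problem X' Y') : Prop :=
  ∃ φ ψ : List ℕ × ℕ → Option ℕ, Computable φ ∧ Computable ψ ∧
    ∀ x ∈ f.dom, ∀ p, X.Names p x →
      ∃ p' x', Computes φ p p' ∧ X'.Names p' x' ∧ x' ∈ g.dom ∧
        ∀ q y', g x' y' → Y'.Names q y' →
          ∃ r y, Computes ψ (join p q) r ∧ Y.Names r y ∧ f x y

/-- The space `ℕ^ℕ`, each point naming itself. -/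
def Baire : RepSpace where
  Point := ℕ → ℕ
  Names p x := p = x
  unique := by
    rintro p x x' rfl rfl
    rfl
  total x := ⟨x, rfl⟩

/-- The space `(ℕ^ℕ)^ℕ` of sequences of elements of `ℕ^ℕ`. -/
def BaireSeq : RepSpace where
  Point := ℕ → ℕ → ℕ
  Names p s := ∀ n k, p (Nat.pair n k) = s n k
  unique := by
    intro p x x' h h'
    funext n k
    rw [← h, ← h']
  total s := ⟨fun i => s i.unpair.1 i.unpair.2, fun n k => by simp⟩

/-- A tree: a set of finite sequences closed under initial segments. -/
def IsTree (T : Set (List ℕ)) : Prop := ∀ σ τ, σ <+: τ → τ ∈ T → σ ∈ T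

/-- The space of trees, named by their characteristic functions. -/
def Tr : RepSpace where
  Point := {T : Set (List ℕ) // IsTree T}
  Names p T := ∀ σ, (σ ∈ T.1 → p (Encodable.encode σ) = 1) ∧ (σ ∉ T.1 → p (Encodable.encode σ) = 0)
  unique := by
    rintro p ⟨T, hT⟩ ⟨T', hT'⟩ h h'
    apply Subtype.ext
    ext σ
    by_cases h1 : σ ∈ T <;> by_cases h2 : σ ∈ T'
    · exact ⟨fun _ => h2, fun _ => h1⟩
    · have h3 := (h σ).1 h1
      have h4 := (h' σ).2 h2
      omega
    · have h3 := (h σ).2 h1
      have h4 := (h' σ).1 h2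
      omega
    · exact ⟨fun h => absurd h h1, fun h => absurd h h2⟩
  total := by
    classical
    rintro ⟨T, hT⟩
    refine ⟨fun n => if Denumerable.ofNat (List ℕ) n ∈ T then 1 else 0, fun σ => ⟨?_, ?_⟩⟩
    · intro h
      have h' : σ ∈ T := h
      simp [h']
    · intro h
      have h' : σ ∉ T := h
      simp [h']

/-- The body `[T]` of a tree: the set of its infinite paths. -/
def body (T : Set (List ℕ)) : Set (ℕ → ℕ) := {g | ∀ n, pre g n ∈ T}

/-- A tree is perfect if each of its elements has two incomparable extensions in it. -/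
def IsPerfectTree (T : Set (List ℕ)) : Prop :=
  IsTree T ∧ ∀ σ ∈ T, ∃ τ₁ ∈ T, ∃ τ₂ ∈ T, σ <+: τ₁ ∧ σ <+: τ₂ ∧ ¬ τ₁ <+: τ₂ ∧ ¬ τ₂ <+: τ₁

/-- The largest perfect subtree of `T`: the union of all perfect subtrees. -/
def largest (T : Set (List ℕ)) : Set (List ℕ) := {σ | ∃ T' ⊆ T, IsPerfectTree T' ∧ σ ∈ T'}

/-- The problem `PK : Tr → Tr` that maps a tree to its largest perfect subtree. -/
def PK : Problem Tr Tr := fun T S => S.1 = largest T.1

/-- The perfect kernel of a closed set: the union of its perfect subsets. -/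
def kernel (A : Set (ℕ → ℕ)) : Set (ℕ → ℕ) := ⋃₀ {C | C ⊆ A ∧ Perfect C}

theorem isClosed_body (T : Set (List ℕ)) : IsClosed (body T) := by
  have h : body T = ⋂ n, {g | pre g n ∈ T} := by
    ext g
    simp [body]
  rw [h]
  exact isClosed_iInter fun n => isClosed_pre (fun σ => σ ∈ T) n

theorem exists_body (A : Set (ℕ → ℕ)) (hA : IsClosed A) :
    ∃ T, IsTree T ∧ body T = A := by
  refine ⟨{σ | ∃ g ∈ A, ∃ n, σ = pre g n}, ?_, ?_⟩
  · rintro σ _ h ⟨g, hg, n, rfl⟩
    exact ⟨g, hg, _, eq_pre_of_isPrefix h⟩
  · apply Set.Subset.antisymm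
    · intro g hg
      rw [← hA.closure_eq, mem_closure_iff_nhds]
      intro U hU
      obtain ⟨n, hn⟩ := mem_nhds_iff_pre.mp hU
      obtain ⟨h, hh, m, hm⟩ := hg n
      have hmn : n = m := by
        have := congrArg List.length hm
        simpa using this
      subst hmn
      exact ⟨h, hn h hm.symm, hh⟩
    · intro g hg n
      exact ⟨g, hg, n, rfl⟩

/-- The space of closed subsets of `ℕ^ℕ`, with the negative representation: a closed set is named by
the characteristic function of any tree of which it is the body. -/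
def ClosedSets : RepSpace where
  Point := {A : Set (ℕ → ℕ) // IsClosed A}
  Names p A := ∃ T : Tr.Point, Tr.Names p T ∧ body T.1 = A.1
  unique := by
    rintro p A A' ⟨T, hT, h⟩ ⟨T', hT', h'⟩
    apply Subtype.ext
    rw [← h, ← h', Tr.unique p T T' hT hT']
  total := by
    rintro ⟨A, hA⟩
    obtain ⟨T, hT, h⟩ := exists_body A hA
    obtain ⟨p, hp⟩ := Tr.total ⟨T, hT⟩
    exact ⟨p, ⟨T, hT⟩, hp, h⟩

/-- The problem `PK_{ℕ^ℕ}` that maps a closed set to its perfect kernel. -/
def PKClosed : Problem ClosedSets ClosedSets := fun A B => B.1 = kernel A.1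

/-- The problem `lim` that maps a convergent sequence in `ℕ^ℕ` to its limit. -/
def limP : Problem BaireSeq Baire :=
  fun (s : ℕ → ℕ → ℕ) (x : ℕ → ℕ) => Filter.Tendsto s Filter.atTop (nhds x)

end Pool.Agent.Lib.MP_a7e1fe_lc
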