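import Pool.Agent.Lib.MP_a7e1fe_lc.Queries

/-!
# The forcing construction: queries and steps
-/

open Set Primrec Encodable
open Pool.Agent.Lib.MP_a8cc1b_lc

namespace Pool.Agent.Lib.MP_a7e1fe_lc

variable {α : Type} [Primcodable α] {β : Type} [Primcodable β]

/-- The `i`-th finite sequence. -/
def nd (i : ℕ) : List ℕ := Denumerable.ofNat (List ℕ) i

@[simp] theorem nd_encode (σ : List ℕ) : nd (encode σ) = σ := by simp [nd]

@[simp] theorem encode_nd (i : ℕ) : encode (nd i) = i := by simp [nd]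

theorem primrec_nd : Primrec nd := by
  refine (Primrec.option_getD.comp (Primrec.decode (α := List ℕ)) (Primrec.const [])).of_eq ?_
  intro i
  simp [nd, Denumerable.decode_eq_ofNat]

/-- A condition: a finite part of a tree and finitely many nodes above which it is frozen. -/
abbrev Cond : Type := List ℕ × List (List ℕ)

/-- The structural part of the extension relation between a condition and a finite part. -/
def Struct (q : Cond × List ℕ) : Prop :=
  q.1.1 <+: q.2 ∧ ∀ i < q.2.length, q.1.1.length ≤ i → (q.2.getD i 0 = 0 ∨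
    (q.2.getD i 0 = 1 ∧ ((∀ τ ∈ q.1.2, ¬ τ <+: nd i) ∧
      ∀ j < i, nd j <+: nd i → q.2.getD j 0 = 1)))

theorem primrec_struct : PrimrecPred Struct := by
  refine (primrec_isPrefix.comp ((fst.comp fst).pair snd)).and ?_
  refine primrecPred_forall_lt (β := Cond × List ℕ) (R := fun i q => q.1.1.length ≤ i →
    (q.2.getD i 0 = 0 ∨ (q.2.getD i 0 = 1 ∧ ((∀ τ ∈ q.1.2, ¬ τ <+: nd i) ∧
      ∀ j < i, nd j <+: nd i → q.2.getD j 0 = 1)))) ?_ (list_length.comp snd)
  have hbit : Primrec fun r : ℕ × (Cond × List ℕ) => r.2.2.getD r.1 0 :=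
    (list_getD 0).comp (snd.comp snd) fst
  refine PrimrecPred.imp' (nat_le.comp (list_length.comp (fst.comp (fst.comp snd))) fst) ?_
  refine (Primrec.eq.comp hbit (Primrec.const 0)).or
    ((Primrec.eq.comp hbit (Primrec.const 1)).and (PrimrecPred.and ?_ ?_))
  · have h1 : PrimrecRel fun (τ : List ℕ) (r : ℕ × (Cond × List ℕ)) => ¬ τ <+: nd r.1 :=
      (primrec_isPrefix.comp (fst.pair (primrec_nd.comp (fst.comp snd)))).not
    exact h1.forall_mem_list.comp (snd.comp (fst.comp snd)) Primrec.id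
  · refine primrecPred_forall_lt (β := ℕ × (Cond × List ℕ)) (R := fun j r =>
      nd j <+: nd r.1 → r.2.2.getD j 0 = 1) ?_ fst
    exact (primrec_isPrefix.comp ((primrec_nd.comp fst).pair
      (primrec_nd.comp (fst.comp snd)))).imp'
      (Primrec.eq.comp ((list_getD 0).comp (snd.comp (snd.comp snd)) fst) (Primrec.const 1))

/-- The event that a change of the `k`-th entry after the `N`-th sequence is seen. The argument is
`((k, N), (u, s))` with finite parts `u`, `s` of the two halves of the oracle. -/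
def Ev (PT : (ℕ × ℕ) × List ℕ → Prop) (q : (ℕ × ℕ) × List ℕ × List ℕ) : Prop :=
  ∃ e < q.2.2.length, (q.1.2 < e.unpair.1 ∧ e.unpair.2.unpair.1 ≠ e.unpair.2.unpair.2) ∧
    (PT ((Nat.pair q.1.2 q.1.1, e.unpair.2.unpair.1), joinL q.2.1 q.2.2 (2 * q.2.2.length)) ∧
    PT ((Nat.pair e.unpair.1 q.1.1, e.unpair.2.unpair.2), joinL q.2.1 q.2.2 (2 * q.2.2.length)))

theorem primrec_ev {PT : (ℕ × ℕ) × List ℕ → Prop} (hPT : PrimrecPred PT) :
    PrimrecPred (Ev PT) := by
  refine primrecPred_exists_lt (β := (ℕ × ℕ) × List ℕ × List ℕ) (R := fun e q =>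
    (q.1.2 < e.unpair.1 ∧ e.unpair.2.unpair.1 ≠ e.unpair.2.unpair.2) ∧
    (PT ((Nat.pair q.1.2 q.1.1, e.unpair.2.unpair.1), joinL q.2.1 q.2.2 (2 * q.2.2.length)) ∧
    PT ((Nat.pair e.unpair.1 q.1.1, e.unpair.2.unpair.2), joinL q.2.1 q.2.2 (2 * q.2.2.length))))
    ?_ (list_length.comp (snd.comp snd))
  have n : Primrec fun r : ℕ × ((ℕ × ℕ) × List ℕ × List ℕ) => r.1.unpair.1 :=
    fst.comp (Primrec.unpair.comp fst)
  have v : Primrec fun r : ℕ × ((ℕ × ℕ) × List ℕ × List ℕ) => r.1.unpair.2.unpair.1 :=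
    fst.comp (Primrec.unpair.comp (snd.comp (Primrec.unpair.comp fst)))
  have v' : Primrec fun r : ℕ × ((ℕ × ℕ) × List ℕ × List ℕ) => r.1.unpair.2.unpair.2 :=
    snd.comp (Primrec.unpair.comp (snd.comp (Primrec.unpair.comp fst)))
  have k : Primrec fun r : ℕ × ((ℕ × ℕ) × List ℕ × List ℕ) => r.2.1.1 :=
    fst.comp (fst.comp snd)
  have N : Primrec fun r : ℕ × ((ℕ × ℕ) × List ℕ × List ℕ) => r.2.1.2 :=
    snd.comp (fst.comp snd)
  have jl : Primrec fun r : ℕ × ((ℕ × ℕ) × List ℕ × List ℕ) =>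
      joinL r.2.2.1 r.2.2.2 (2 * r.2.2.2.length) :=
    primrec_joinL (fst.comp (snd.comp snd)) (snd.comp (snd.comp snd))
      (nat_double.comp (list_length.comp (snd.comp (snd.comp snd))))
  refine PrimrecPred.and ((nat_lt.comp N n).and (Primrec.eq.comp v v').not) ?_
  exact (hPT.comp (((Primrec₂.natPair.comp N k).pair v).pair jl)).and
    (hPT.comp (((Primrec₂.natPair.comp n k).pair v').pair jl))

/-- The negated query: every extension of the condition with the event has a forbidden zero. -/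
def D1 (PT : (ℕ × ℕ) × List ℕ → Prop) (x : ℕ → ℕ) (a : Cond × ℕ) : Prop :=
  ∀ s : List ℕ, ¬ (Struct (a.1, s) ∧
      Ev PT (a.2.unpair, pre (fun k => x (2 * k)) s.length, s)) ∨
    ∃ i, (i < s.length ∧ a.1.1.length ≤ i ∧ s.getD i 0 = 0) ∧ nd i ∈ largest (oddTree x)

theorem s11_D1 {PT : (ℕ × ℕ) × List ℕ → Prop} (hPT : PrimrecPred PT) :
    S11 (fun x (a : Cond × ℕ) => D1 PT x a) := by
  have h1 : S11 (fun (x : ℕ → ℕ) (b : (Cond × ℕ) × List ℕ) => ¬ (Struct (b.1.1, b.2) ∧
      Ev PT (b.1.2.unpair, pre (fun k => x (2 * k)) b.2.length, b.2))) := by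
    have h2 : PrimrecPred fun q : ((Cond × ℕ) × List ℕ) × List ℕ =>
        ¬ (Struct (q.1.1.1, q.1.2) ∧ Ev PT (q.1.1.2.unpair, evensL q.2, q.1.2)) := by
      refine (PrimrecPred.and ?_ ?_).not
      · exact primrec_struct.comp ((fst.comp (fst.comp fst)).pair (snd.comp fst))
      · exact (primrec_ev hPT).comp ((Primrec.unpair.comp (snd.comp (fst.comp fst))).pair
          ((primrec_evensL.comp snd).pair (snd.comp fst)))
    refine (s11_of_pre h2 (g := fun b => 2 * b.2.length)
      (nat_double.comp (list_length.comp snd))).of_iff ?_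
    intro x b
    rw [evensL_pre]
  have h3 : S11 (fun (x : ℕ → ℕ) (b : ((Cond × ℕ) × List ℕ) × ℕ) =>
      (b.2 < b.1.2.length ∧ b.1.1.1.1.length ≤ b.2 ∧ b.1.2.getD b.2 0 = 0) ∧
      nd b.2 ∈ largest (oddTree x)) := by
    apply S11.and
    · apply S11.of_primrec
      refine (nat_lt.comp snd (list_length.comp (snd.comp fst))).and (PrimrecPred.and ?_ ?_)
      · exact nat_le.comp (list_length.comp (fst.comp (fst.comp (fst.comp fst)))) snd
      · exact Primrec.eq.comp ((list_getD 0).comp (snd.comp fst) snd) (Primrec.const 0)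
    · exact s11_mem_largest.comp (primrec_nd.comp snd)
  exact (h1.or h3.exB).allB

/-- The type of indices of queries. -/
abbrev Idx : Type := ℕ × List ℕ × Cond × ℕ

/-- The index of the query whether `σ` is in the largest perfect subtree. -/
def idx0 (σ : List ℕ) : Idx := (0, σ, ([], []), 0)

/-- The index of the query of stage `t` at the condition `c`. -/
def idx1 (c : Cond) (t : ℕ) : Idx := (1, [], c, t)

/-- All queries. -/
def DQ (PT : (ℕ × ℕ) × List ℕ → Prop) (x : ℕ → ℕ) (q : Idx) : Prop :=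
  (q.1 = 0 ∧ q.2.1 ∈ largest (oddTree x)) ∨ (q.1 ≠ 0 ∧ D1 PT x q.2.2)

theorem DQ_idx0 (PT : (ℕ × ℕ) × List ℕ → Prop) (x : ℕ → ℕ) (σ : List ℕ) :
    DQ PT x (idx0 σ) ↔ σ ∈ largest (oddTree x) := by
  simp [DQ, idx0]

theorem DQ_idx1 (PT : (ℕ × ℕ) × List ℕ → Prop) (x : ℕ → ℕ) (c : Cond) (t : ℕ) :
    DQ PT x (idx1 c t) ↔ D1 PT x (c, t) := by
  simp [DQ, idx1]

theorem exists_QT {PT : (ℕ × ℕ) × List ℕ → Prop} (hPT : PrimrecPred PT) :
    ∃ P : ℕ × List ℕ × List ℕ → Prop, PrimrecPred P ∧ ∀ x (q : Idx),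
      [encode q] ∈ largest (QT P x) ↔ DQ PT x q := by
  have h1 : S11 (fun x (q : Idx) => DQ PT x q) := by
    apply S11.or
    · exact (S11.of_primrec (Primrec.eq.comp fst (Primrec.const 0))).and
        (s11_mem_largest.comp (fst.comp snd))
    · exact (S11.of_primrec (Primrec.eq.comp fst (Primrec.const 0)).not).and
        ((s11_D1 hPT).comp (snd.comp snd))
  have h2 := h1.comp (g := fun n : ℕ => (decode (α := Idx) n).getD (idx0 []))
    (Primrec.option_getD.comp Primrec.decode (Primrec.const _))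
  obtain ⟨P, hP, h3⟩ := h2
  refine ⟨P, hP, ?_⟩
  intro x q
  rw [mem_largest_QT]
  have h4 : DQ PT x ((decode (α := Idx) (encode q)).getD (idx0 [])) ↔
      ∃ w : ℕ → ℕ, ∀ n, P (encode q, pre x n, pre w n) := h3 x (encode q)
  rw [encodek] at h4
  exact h4.symm

/-- The characteristic function of the tree of queries has a semidecidable graph. -/
theorem exists_QT_graph {P : ℕ × List ℕ × List ℕ → Prop} (hP : PrimrecPred P) :
    ∃ G : (ℕ → ℕ) → ℕ × ℕ → Prop, S01 G ∧ ∀ x y : ℕ → ℕ,
      (∀ σ, (σ ∈ QT P x → y (encode σ) = 1) ∧ (σ ∉ QT P x → y (encode σ) = 0)) →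
      IsGraph G x y := by
  -- membership in terms of an initial segment of `x`
  let M : List ℕ × List ℕ → Prop := fun q => q.1 = [] ∨
    ∀ i < q.1.length, P (q.1.headI, q.2.take i, (q.1.tail.map (fun j => j / 2)).take i)
  have hM : PrimrecPred M := by
    refine (Primrec.eq.comp fst (Primrec.const [])).or ?_
    refine primrecPred_forall_lt (β := List ℕ × List ℕ) (R := fun i q =>
      P (q.1.headI, q.2.take i, (q.1.tail.map (fun j => j / 2)).take i)) ?_
      (list_length.comp fst)
    refine hP.comp ((list_headI.comp (fst.comp snd)).pair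
      ((list_take.comp fst (snd.comp snd)).pair (list_take.comp fst ?_)))
    exact list_map (list_tail.comp (fst.comp snd)) (nat_div.comp snd (Primrec.const 2)).to₂
  have hMQ : ∀ x σ, M (σ, pre x σ.length) ↔ σ ∈ QT P x := by
    intro x σ
    rcases σ with _ | ⟨a, l⟩
    · simp [M, QT]
    · constructor
      · rintro (h | h)
        · cases h
        · refine Or.inr ⟨a, l, rfl, ?_⟩
          intro i hi
          have h1 := h i (by simpa using hi)
          simp only [List.headI_cons, List.tail_cons] at h1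
          rw [pre_take _ _ _ (by simp; omega)] at h1
          exact h1
      · rintro (h | ⟨b, l', h, h2⟩)
        · cases h
        · obtain ⟨rfl, rfl⟩ := List.cons.inj h
          refine Or.inr ?_
          intro i hi
          simp only [List.headI_cons, List.tail_cons]
          simp only [List.length_cons] at hi
          rw [pre_take _ _ _ (by simp; omega)]
          exact h2 i hi
  refine ⟨fun x q => (M (nd q.1, pre x (nd q.1).length) ∧ q.2 = 1) ∨
    (¬ M (nd q.1, pre x (nd q.1).length) ∧ q.2 = 0), ?_, ?_⟩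
  · have hl : Primrec fun q : ℕ × ℕ => (nd q.1).length := list_length.comp (primrec_nd.comp fst)
    apply S01.or
    · refine S01.and ?_ (S01.of_primrec (Primrec.eq.comp snd (Primrec.const 1)))
      exact S01.of_pre (P := fun r : (ℕ × ℕ) × List ℕ => M (nd r.1.1, r.2))
        (hM.comp ((primrec_nd.comp (fst.comp fst)).pair snd)) hl
    · refine S01.and ?_ (S01.of_primrec (Primrec.eq.comp snd (Primrec.const 0)))
      exact S01.of_pre (P := fun r : (ℕ × ℕ) × List ℕ => ¬ M (nd r.1.1, r.2))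
        (hM.comp ((primrec_nd.comp (fst.comp fst)).pair snd)).not hl
  · intro x y hy n v
    have h1 := hy (nd n)
    rw [encode_nd] at h1
    show (M (nd n, pre x (nd n).length) ∧ v = 1) ∨ (¬ M (nd n, pre x (nd n).length) ∧ v = 0) ↔
      v = y n
    rw [hMQ]
    by_cases h2 : nd n ∈ QT P x
    · rw [h1.1 h2]
      simp [h2]
    · rw [h1.2 h2]
      simp [h2]

end Pool.Agent.Lib.MP_a7e1fe_lc
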