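import Pool.Agent.Lib.MP_a7e1fe_lc.Upper

/-!
# `PK` is below a composition of a problem below `lim` with one below `PK_{ℕ^ℕ}`
-/

open Set Primrec Encodable Filter Topology
open Pool.Agent.Lib.MP_a8cc1b_lc

namespace Pool.Agent.Lib.MP_a7e1fe_lc

/-- The code `0^i` followed by the entries of `τ`, each increased by one. -/
def zs (i : ℕ) (τ : List ℕ) : List ℕ := List.replicate i 0 ++ τ.map (· + 1)

theorem zs_isPrefix_iff (i : ℕ) (τ τ' : List ℕ) : zs i τ <+: zs i τ' ↔ τ <+: τ' := by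
  rw [zs, zs, List.prefix_append_right_inj]
  exact List.prefix_map_iff_of_injective (add_left_injective 1)

theorem isPrefix_zs {ρ : List ℕ} {i : ℕ} {τ : List ℕ} (h : ρ <+: zs i τ) :
    ∃ j τ', ρ = zs j τ' ∧ τ' <+: τ := by
  induction i generalizing ρ with
  | zero =>
    have h' : ρ <+: τ.map (· + 1) := by simpa [zs] using h
    obtain ⟨τ', h1, h2⟩ := List.prefix_map_iff.mp h'
    exact ⟨0, τ', by simpa [zs] using h2, h1⟩
  | succ i IH =>
    rcases ρ with _ | ⟨a, ρ⟩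
    · exact ⟨0, [], by simp [zs], List.nil_prefix⟩
    · have h' : a :: ρ <+: 0 :: zs i τ := by
        simpa [zs, List.replicate_succ] using h
      rw [List.cons_prefix_cons] at h'
      obtain ⟨rfl, h2⟩ := h'
      obtain ⟨j, τ', h3, h4⟩ := IH h2
      refine ⟨j + 1, τ', ?_, h4⟩
      rw [h3]
      simp [zs, List.replicate_succ]

theorem zs_isPrefix_zs {i i' a : ℕ} {τ τ' : List ℕ} (h : zs i (a :: τ) <+: zs i' τ') :
    i = i' ∧ a :: τ <+: τ' := by
  induction i generalizing i' with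
  | zero =>
    rcases i' with _ | i'
    · exact ⟨rfl, (zs_isPrefix_iff 0 _ _).mp h⟩
    · simp [zs, List.replicate_succ] at h
  | succ i IH =>
    rcases i' with _ | i'
    · rcases τ' with _ | ⟨b, τ'⟩
      · simp [zs, List.replicate_succ] at h
      · simp [zs, List.replicate_succ] at h
    · have h' : 0 :: zs i (a :: τ) <+: 0 :: zs i' τ' := by
        simpa [zs, List.replicate_succ] using h
      rw [List.cons_prefix_cons] at h'
      obtain ⟨h1, h2⟩ := IH h'.2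
      exact ⟨by rw [h1], h2⟩

/-- Two sequences are comparable. -/
def Cmp (σ τ : List ℕ) : Prop := σ <+: τ ∨ τ <+: σ

/-- The auxiliary tree: above the code of `σ`, the sequences `0^i τ` with `τ` in `T` comparable
with `σ`. -/
def WT (T : Set (List ℕ)) : Set (List ℕ) :=
  {l | l = [] ∨ ∃ c i τ, l = c :: zs i τ ∧ τ ∈ T ∧ Cmp τ (nd c)}

theorem Cmp.of_isPrefix {σ τ ρ : List ℕ} (h : Cmp σ τ) (h1 : ρ <+: σ) : Cmp ρ τ := by
  rcases h with h | h
  · exact Or.inl (h1.trans h)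
  · exact List.prefix_or_prefix_of_prefix h1 h

theorem isTree_WT {T : Set (List ℕ)} (hT : IsTree T) : IsTree (WT T) := by
  rintro ρ _ h (rfl | ⟨c, i, τ, rfl, h1, h2⟩)
  · exact Or.inl (List.prefix_nil.mp h)
  · rcases ρ with _ | ⟨b, ρ⟩
    · exact Or.inl rfl
    · rw [List.cons_prefix_cons] at h
      obtain ⟨rfl, h⟩ := h
      obtain ⟨j, τ', rfl, h3⟩ := isPrefix_zs h
      exact Or.inr ⟨b, j, τ', rfl, hT _ _ h3 h1, h2.of_isPrefix h3⟩

/-- The path `c 0 0 0 …`. -/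
def hpath (c : ℕ) : ℕ → ℕ := fun n => if n = 0 then c else 0

theorem pre_hpath (c n : ℕ) : pre (hpath c) (n + 1) = c :: zs n [] := by
  rw [pre_succ']
  simp only [hpath, if_true, Nat.add_eq_zero_iff, one_ne_zero, and_false, if_false, zs,
    List.map_nil, List.append_nil]
  congr 1
  simp [pre]

theorem mem_largest_of_hpath {T : Set (List ℕ)} (hT : IsTree T) {σ : List ℕ}
    (h : [encode σ] ∈ largest (WT T)) : σ ∈ largest T := by
  obtain ⟨P, hPW, hP, hσ⟩ := h
  -- a node off the zero path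
  have hex : ∃ i a ρ, encode σ :: zs i (a :: ρ) ∈ P := by
    obtain ⟨τ₁, h1, τ₂, h2, h3, h4, h5, h6⟩ := hP.2 _ hσ
    have form : ∀ τ ∈ P, [encode σ] <+: τ → ∃ i ρ, τ = encode σ :: zs i ρ := by
      intro τ hτ hpre
      rcases hPW hτ with rfl | ⟨c, i, ρ, rfl, -, -⟩
      · exact absurd (List.prefix_nil.mp hpre) (List.cons_ne_nil _ _)
      · rw [List.cons_prefix_cons] at hpre
        exact ⟨i, ρ, by rw [hpre.1]⟩
    obtain ⟨i, ρ, rfl⟩ := form _ h1 h3
    obtain ⟨i', ρ', rfl⟩ := form _ h2 h4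
    rcases ρ with _ | ⟨a, ρ⟩
    · rcases ρ' with _ | ⟨a, ρ'⟩
      · exfalso
        rcases comparable_pre (hpath (encode σ)) (i + 1) (i' + 1) with h7 | h7
        · rw [pre_hpath, pre_hpath] at h7
          exact h5 h7
        · rw [pre_hpath, pre_hpath] at h7
          exact h6 h7
      · exact ⟨i', a, ρ', h2⟩
    · exact ⟨i, a, ρ, h1⟩
  obtain ⟨i, a, ρ, hρ⟩ := hex
  let Q : Set (List ℕ) := {τ | Cmp τ (a :: ρ) ∧ encode σ :: zs i τ ∈ P}
  have hQW : ∀ τ ∈ Q, τ ∈ T ∧ Cmp τ σ := by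
    -- elements of `Q` with at least one entry
    have h1 : ∀ b τ, encode σ :: zs i (b :: τ) ∈ P → b :: τ ∈ T ∧ Cmp (b :: τ) σ := by
      intro b τ hτ
      rcases hPW hτ with h | ⟨c, i', τ', h, h2, h3⟩
      · cases h
      · obtain ⟨h4, h5⟩ := List.cons.inj h
        have h6 := zs_isPrefix_zs (h5 ▸ List.prefix_rfl : zs i (b :: τ) <+: zs i' τ')
        rw [← h4, nd_encode] at h3
        exact ⟨hT _ _ h6.2 h2, h3.of_isPrefix h6.2⟩
    rintro τ ⟨h2, h3⟩
    rcases τ with _ | ⟨b, τ⟩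
    · exact ⟨hT _ _ List.nil_prefix (h1 a ρ hρ).1, Or.inl List.nil_prefix⟩
    · exact h1 b τ h3
  have hQ : IsPerfectTree Q := by
    constructor
    · rintro τ' τ h ⟨h1, h2⟩
      refine ⟨h1.of_isPrefix h, hP.1 _ _ ?_ h2⟩
      rw [List.cons_prefix_cons, zs_isPrefix_iff]
      exact ⟨rfl, h⟩
    · -- extensions of a nonempty element of `Q` extending `a :: ρ`
      have h1 : ∀ τ, a :: ρ <+: τ → encode σ :: zs i τ ∈ P → ∃ τ₁ ∈ Q, ∃ τ₂ ∈ Q,
          τ <+: τ₁ ∧ τ <+: τ₂ ∧ ¬ τ₁ <+: τ₂ ∧ ¬ τ₂ <+: τ₁ := by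
        intro τ hτ hτP
        obtain ⟨b, τ0, rfl⟩ : ∃ b τ0, τ = b :: τ0 := by
          obtain ⟨t, rfl⟩ := hτ
          exact ⟨a, ρ ++ t, rfl⟩
        have form : ∀ l ∈ P, encode σ :: zs i (b :: τ0) <+: l →
            ∃ τ', l = encode σ :: zs i τ' ∧ b :: τ0 <+: τ' := by
          intro l hl hpre
          rcases hPW hl with rfl | ⟨c, i', τ', rfl, -, -⟩
          · exact absurd (List.prefix_nil.mp hpre) (List.cons_ne_nil _ _)
          · rw [List.cons_prefix_cons] at hpre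
            obtain ⟨h2, h3⟩ := zs_isPrefix_zs hpre.2
            exact ⟨τ', by rw [hpre.1, h2], h3⟩
        obtain ⟨l₁, g1, l₂, g2, g3, g4, g5, g6⟩ := hP.2 _ hτP
        obtain ⟨τ₁, rfl, k1⟩ := form _ g1 g3
        obtain ⟨τ₂, rfl, k2⟩ := form _ g2 g4
        refine ⟨τ₁, ⟨Or.inr (hτ.trans k1), g1⟩, τ₂, ⟨Or.inr (hτ.trans k2), g2⟩, k1, k2, ?_, ?_⟩
        · intro h
          apply g5
          rw [List.cons_prefix_cons, zs_isPrefix_iff]
          exact ⟨rfl, h⟩
        · intro h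
          apply g6
          rw [List.cons_prefix_cons, zs_isPrefix_iff]
          exact ⟨rfl, h⟩
      rintro τ ⟨h2 | h2, h3⟩
      · obtain ⟨τ₁, g1, τ₂, g2, g3, g4, g5⟩ := h1 (a :: ρ) List.prefix_rfl hρ
        exact ⟨τ₁, g1, τ₂, g2, h2.trans g3, h2.trans g4, g5⟩
      · exact h1 τ h2 h3
  -- a long element of `Q`
  have hρQ : a :: ρ ∈ Q := ⟨Or.inl List.prefix_rfl, hρ⟩
  obtain ⟨g, hg, -⟩ := hQ.exists_path hρQ
  have h2 := hg σ.length
  have h3 : pre g σ.length = σ := by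
    rcases (hQW _ h2).2 with h | h
    · exact h.eq_of_length (by simp)
    · exact (h.eq_of_length (by simp)).symm
  rw [h3] at h2
  exact ⟨Q, fun τ hτ => (hQW τ hτ).1, hQ, h2⟩

theorem hpath_mem_of_largest {T : Set (List ℕ)} {σ : List ℕ} (h : σ ∈ largest T) (n : ℕ) :
    pre (hpath (encode σ)) n ∈ largest (WT T) := by
  have hL := isPerfectTree_largest T
  let P : Set (List ℕ) := {l | l = [] ∨ ∃ i τ, l = encode σ :: zs i τ ∧ τ ∈ largest T ∧ Cmp τ σ}
  have hnil : [] ∈ largest T := hL.1 _ _ List.nil_prefix h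
  refine ⟨P, ?_, ⟨?_, ?_⟩, ?_⟩
  · rintro l (rfl | ⟨i, τ, rfl, h1, h2⟩)
    · exact Or.inl rfl
    · exact Or.inr ⟨_, i, τ, rfl, largest_subset T h1, by rwa [nd_encode]⟩
  · rintro ρ _ hpre (rfl | ⟨i, τ, rfl, h1, h2⟩)
    · exact Or.inl (List.prefix_nil.mp hpre)
    · rcases ρ with _ | ⟨b, ρ⟩
      · exact Or.inl rfl
      · rw [List.cons_prefix_cons] at hpre
        obtain ⟨rfl, hpre⟩ := hpre
        obtain ⟨j, τ', rfl, h3⟩ := isPrefix_zs hpre
        exact Or.inr ⟨j, τ', rfl, hL.1 _ _ h3 h1, h2.of_isPrefix h3⟩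
  · have main : ∀ i τ, τ ∈ largest T → Cmp τ σ → ∃ τ₁ ∈ P, ∃ τ₂ ∈ P,
        encode σ :: zs i τ <+: τ₁ ∧ encode σ :: zs i τ <+: τ₂ ∧ ¬ τ₁ <+: τ₂ ∧ ¬ τ₂ <+: τ₁ := by
      intro i τ hτ hc
      -- the longer of `τ` and `σ`
      obtain ⟨ρ, hρ, h1, h2⟩ : ∃ ρ ∈ largest T, τ <+: ρ ∧ σ <+: ρ := by
        rcases hc with hc | hc
        · exact ⟨σ, h, hc, List.prefix_rfl⟩
        · exact ⟨τ, hτ, List.prefix_rfl, hc⟩
      obtain ⟨τ₁, g1, τ₂, g2, g3, g4, g5, g6⟩ := hL.2 ρ hρ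
      refine ⟨encode σ :: zs i τ₁, Or.inr ⟨i, τ₁, rfl, g1, Or.inr (h2.trans g3)⟩,
        encode σ :: zs i τ₂, Or.inr ⟨i, τ₂, rfl, g2, Or.inr (h2.trans g4)⟩, ?_, ?_, ?_, ?_⟩
      · rw [List.cons_prefix_cons, zs_isPrefix_iff]
        exact ⟨rfl, h1.trans g3⟩
      · rw [List.cons_prefix_cons, zs_isPrefix_iff]
        exact ⟨rfl, h1.trans g4⟩
      · rw [List.cons_prefix_cons, zs_isPrefix_iff]
        exact fun h7 => g5 h7.2
      · rw [List.cons_prefix_cons, zs_isPrefix_iff]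
        exact fun h7 => g6 h7.2
    rintro l (rfl | ⟨i, τ, rfl, h1, h2⟩)
    · obtain ⟨τ₁, g1, τ₂, g2, g3, g4, g5⟩ := main 0 [] hnil (Or.inl List.nil_prefix)
      exact ⟨τ₁, g1, τ₂, g2, List.nil_prefix, List.nil_prefix, g5⟩
    · exact main i τ h1 h2
  · rcases n with _ | n
    · exact Or.inl rfl
    · exact Or.inr ⟨n, [], pre_hpath _ _, hnil, Or.inl List.nil_prefix⟩

theorem hpath_mem_iff {T : Set (List ℕ)} (hT : IsTree T) (σ : List ℕ) :
    hpath (encode σ) ∈ kernel (body (WT T)) ↔ σ ∈ largest T := by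
  rw [kernel_body]
  constructor
  · intro h
    apply mem_largest_of_hpath hT
    exact h 1
  · intro h n
    exact hpath_mem_of_largest h n

/-! ### Deciding membership in the auxiliary tree -/

/-- Drop the initial zeros. -/
def dz (l : List ℕ) : List ℕ := l.dropWhile (fun a => decide (a = 0))

theorem dz_zs (i : ℕ) (τ : List ℕ) : dz (zs i τ) = τ.map (· + 1) := by
  induction i with
  | zero =>
    rcases τ with _ | ⟨b, τ⟩
    · simp [dz, zs]
    · simp [dz, zs]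
  | succ i IH =>
    have : zs (i + 1) τ = 0 :: zs i τ := by simp [zs, List.replicate_succ]
    rw [this, dz, List.dropWhile_cons]
    simp only [decide_true, if_true]
    exact IH

theorem exists_zs (l : List ℕ) (h : ∀ a ∈ dz l, a ≠ 0) :
    ∃ i, l = zs i ((dz l).map (fun a => a - 1)) := by
  induction l with
  | nil => exact ⟨0, by simp [dz, zs]⟩
  | cons b l IH =>
    by_cases hb : b = 0
    · subst hb
      have h1 : dz (0 :: l) = dz l := by simp [dz, List.dropWhile_cons]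
      rw [h1] at h ⊢
      obtain ⟨i, hi⟩ := IH h
      refine ⟨i + 1, ?_⟩
      have : zs (i + 1) ((dz l).map (fun a => a - 1)) =
          0 :: zs i ((dz l).map (fun a => a - 1)) := by simp [zs, List.replicate_succ]
      rw [this, ← hi]
    · have h1 : dz (b :: l) = b :: l := by simp [dz, List.dropWhile_cons, hb]
      rw [h1] at h ⊢
      refine ⟨0, ?_⟩
      simp only [zs, List.replicate_zero, List.nil_append, List.map_map]
      conv_lhs => rw [← List.map_id (b :: l)]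
      apply List.map_congr_left
      intro a ha
      have := h a ha
      simp only [id_eq, Function.comp_apply]
      omega

/-- The decidable part of membership in the auxiliary tree. -/
def BW (l : List ℕ) : Prop :=
  (∀ a ∈ dz l.tail, a ≠ 0) ∧
    ((dz l.tail).map (fun a => a - 1) <+: nd l.headI ∨
      nd l.headI <+: (dz l.tail).map (fun a => a - 1))

theorem mem_WT_cons (T : Set (List ℕ)) (l : List ℕ) (hl : l ≠ []) :
    l ∈ WT T ↔ BW l ∧ (dz l.tail).map (fun a => a - 1) ∈ T := by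
  obtain ⟨c, l', rfl⟩ := List.exists_cons_of_ne_nil hl
  simp only [BW, List.tail_cons, List.headI_cons]
  constructor
  · rintro (h | ⟨c', i, τ, h, h1, h2⟩)
    · cases h
    · obtain ⟨rfl, rfl⟩ := List.cons.inj h
      rw [dz_zs, List.map_map]
      have h3 : τ.map ((fun a => a - 1) ∘ (· + 1)) = τ := by
        conv_rhs => rw [← List.map_id τ]
        apply List.map_congr_left
        intro a _
        simp
      rw [h3]
      refine ⟨⟨?_, h2⟩, h1⟩
      intro a ha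
      rw [List.mem_map] at ha
      obtain ⟨b, -, rfl⟩ := ha
      exact Nat.succ_ne_zero b
  · rintro ⟨⟨h1, h2⟩, h3⟩
    obtain ⟨i, hi⟩ := exists_zs l' h1
    exact Or.inr ⟨c, i, _, by rw [← hi], h3, h2⟩

theorem primrec_dz : Primrec dz := by
  apply list_dropWhile
  exact (Primrec.eq.comp Primrec.id (Primrec.const 0)).decide

theorem primrec_dzp : Primrec fun l : List ℕ => (dz l.tail).map (fun a => a - 1) :=
  list_map (primrec_dz.comp list_tail) (nat_sub.comp snd (Primrec.const 1)).to₂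

theorem primrec_BW : PrimrecPred BW := by
  have h1 : PrimrecRel fun (a : ℕ) (_ : List ℕ) => a ≠ 0 :=
    (Primrec.eq.comp fst (Primrec.const 0)).not
  have h2 : PrimrecPred fun l : List ℕ => ∀ a ∈ dz l.tail, a ≠ 0 :=
    h1.forall_mem_list.comp (primrec_dz.comp list_tail) Primrec.id
  have h3 : Primrec fun l : List ℕ => nd l.headI := primrec_nd.comp list_headI
  exact h2.and ((primrec_isPrefix.comp (primrec_dzp.pair h3)).or
    (primrec_isPrefix.comp (h3.pair primrec_dzp)))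

/-- The graph of the characteristic function of the auxiliary tree. -/
def GW (p : ℕ → ℕ) (q : ℕ × ℕ) : Prop :=
  ((nd q.1 = [] ∧ q.2 = 1) ∨ ((¬ nd q.1 = [] ∧ ¬ BW (nd q.1)) ∧ q.2 = 0)) ∨
    ((¬ nd q.1 = [] ∧ BW (nd q.1)) ∧
      p (encode ((dz (nd q.1).tail).map (fun a => a - 1))) = q.2)

theorem s01_GW : S01 GW := by
  have hn : Primrec fun q : ℕ × ℕ => nd q.1 := primrec_nd.comp fst
  have h0 : PrimrecPred fun q : ℕ × ℕ => nd q.1 = [] := Primrec.eq.comp hn (Primrec.const [])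
  have hB : PrimrecPred fun q : ℕ × ℕ => BW (nd q.1) := primrec_BW.comp hn
  have h1 : PrimrecPred fun q : ℕ × ℕ => q.2 = 1 := Primrec.eq.comp snd (Primrec.const 1)
  have h2 : PrimrecPred fun q : ℕ × ℕ => q.2 = 0 := Primrec.eq.comp snd (Primrec.const 0)
  refine (S01.or (S01.of_primrec (h0.and h1)) (S01.of_primrec ((h0.not.and hB.not).and h2))).or
    ((S01.of_primrec (h0.not.and hB)).and ?_)
  exact S01.eval (p := fun r : (ℕ × ℕ) × ℕ => r.2 = r.1.2)
    (Primrec.eq.comp snd (snd.comp fst))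
    (g := fun q : ℕ × ℕ => encode ((dz (nd q.1).tail).map (fun a => a - 1)))
    (Primrec.encode.comp (primrec_dzp.comp hn))

theorem isGraph_GW {p w : ℕ → ℕ} {T : Tr.Point} (hp : Tr.Names p T)
    (hw : Tr.Names w ⟨WT T.1, isTree_WT T.2⟩) : IsGraph GW p w := by
  intro n v
  have h1 := hw (nd n)
  rw [encode_nd] at h1
  have h2 := hp ((dz (nd n).tail).map (fun a => a - 1))
  show ((nd n = [] ∧ v = 1) ∨ ((¬ nd n = [] ∧ ¬ BW (nd n)) ∧ v = 0)) ∨
    ((¬ nd n = [] ∧ BW (nd n)) ∧ p (encode ((dz (nd n).tail).map (fun a => a - 1))) = v) ↔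
    v = w n
  by_cases h0 : nd n = []
  · have h3 : w n = 1 := h1.1 (Or.inl h0)
    simp [h0, h3]
  · by_cases hB : BW (nd n)
    · simp only [h0, hB, not_true_eq_false, not_false_eq_true, false_and, and_false, true_and,
        false_or]
      by_cases hT : (dz (nd n).tail).map (fun a => a - 1) ∈ T.1
      · rw [h2.1 hT, h1.1 ((mem_WT_cons _ _ h0).mpr ⟨hB, hT⟩)]
        exact eq_comm
      · rw [h2.2 hT, h1.2 (fun h => hT ((mem_WT_cons _ _ h0).mp h).2)]
        exact eq_comm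
    · have h3 : w n = 0 := h1.2 (fun h => hB ((mem_WT_cons _ _ h0).mp h).1)
      simp [h0, hB, h3]

/-! ### The reductions -/

/-- The graph of the odd part of the oracle. -/
def oddG (z : ℕ → ℕ) (q : ℕ × ℕ) : Prop := z (2 * q.1 + 1) = q.2

theorem s01_oddG : S01 oddG :=
  S01.eval (p := fun q : (ℕ × ℕ) × ℕ => q.2 = q.1.2) (Primrec.eq.comp snd (snd.comp fst))
    (nat_double_succ.comp fst)

theorem isGraph_oddG (p q : ℕ → ℕ) : IsGraph oddG (join p q) q := by
  intro n v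
  show join p q (2 * n + 1) = v ↔ v = q n
  rw [join_odd]
  exact eq_comm

/-- The inner problem. -/
def gP : Problem Tr ClosedSets := fun T B => B.1 = kernel (body (WT T.1))

/-- The outer problem. -/
def fP : Problem ClosedSets Tr := fun B T => T.1 = {σ | hpath (encode σ) ∈ B.1}

theorem gP_le : WLe gP PKClosed := by
  obtain ⟨φ, hφ, hφ'⟩ := exists_machine s01_GW
  obtain ⟨ψ, hψ, hψ'⟩ := exists_machine s01_oddG
  refine ⟨φ, ψ, hφ, hψ, ?_⟩
  rintro T - p hp
  let W : Tr.Point := ⟨WT T.1, isTree_WT T.2⟩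
  obtain ⟨w, hw⟩ := Tr.total W
  refine ⟨w, ⟨body (WT T.1), isClosed_body _⟩, hφ' p w (isGraph_GW hp hw), ⟨W, hw, rfl⟩,
    ⟨⟨kernel (body (WT T.1)), ?_⟩, rfl⟩, ?_⟩
  · rw [kernel_body]
    exact isClosed_body _
  · intro q B hB hq
    exact ⟨q, B, hψ' _ _ (isGraph_oddG p q), hq, hB⟩

/-- The graph of the approximating sequence. -/
def GSeq (q : ℕ → ℕ) (r : ℕ × ℕ) : Prop :=
  ((∀ i < r.1.unpair.1 + 1, q (encode (pre (hpath r.1.unpair.2) i)) = 1) ∧ r.2 = 1) ∨
    ((∃ i, i < r.1.unpair.1 + 1 ∧ ¬ q (encode (pre (hpath r.1.unpair.2) i)) = 1) ∧ r.2 = 0)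

theorem s01_GSeq : S01 GSeq := by
  have hcode : Primrec fun s : (ℕ × ℕ) × ℕ => encode (pre (hpath s.1.1.unpair.2) s.2) := by
    refine Primrec.encode.comp (list_map (list_range.comp snd) ?_)
    have h1 : Primrec fun t : ((ℕ × ℕ) × ℕ) × ℕ => if t.2 = 0 then t.1.1.1.unpair.2 else 0 :=
      Primrec.ite (Primrec.eq.comp snd (Primrec.const 0))
        (snd.comp (Primrec.unpair.comp (fst.comp (fst.comp fst)))) (Primrec.const 0)
    exact h1.to₂
  have h1 : S01 (fun (q : ℕ → ℕ) (s : (ℕ × ℕ) × ℕ) =>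
      q (encode (pre (hpath s.1.1.unpair.2) s.2)) = 1) :=
    S01.eval (p := fun r : ((ℕ × ℕ) × ℕ) × ℕ => r.2 = 1)
      (Primrec.eq.comp snd (Primrec.const 1)) hcode
  have h2 : S01 (fun (q : ℕ → ℕ) (s : (ℕ × ℕ) × ℕ) =>
      ¬ q (encode (pre (hpath s.1.1.unpair.2) s.2)) = 1) :=
    S01.eval (p := fun r : ((ℕ × ℕ) × ℕ) × ℕ => ¬ r.2 = 1)
      (Primrec.eq.comp snd (Primrec.const 1)).not hcode
  have hb : Primrec fun r : ℕ × ℕ => r.1.unpair.1 + 1 :=
    Primrec.succ.comp (fst.comp (Primrec.unpair.comp fst))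
  have h3 : S01 (fun (q : ℕ → ℕ) (s : (ℕ × ℕ) × ℕ) => s.2 < s.1.1.unpair.1 + 1 ∧
      ¬ q (encode (pre (hpath s.1.1.unpair.2) s.2)) = 1) :=
    (S01.of_primrec (nat_lt.comp snd (hb.comp fst))).and h2
  exact ((h1.ball hb).and (S01.of_primrec (Primrec.eq.comp snd (Primrec.const 1)))).or
    (h3.exN.and (S01.of_primrec (Primrec.eq.comp snd (Primrec.const 0))))

theorem fP_le : WLe fP limP := by
  classical
  obtain ⟨φ, hφ, hφ'⟩ := exists_machine s01_GSeq
  obtain ⟨ψ, hψ, hψ'⟩ := exists_machine s01_oddG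
  refine ⟨φ, ψ, hφ, hψ, ?_⟩
  rintro B ⟨T', hT'⟩ q ⟨S, hS, hSB⟩
  have hqS : ∀ σ, q (encode σ) = 1 ↔ σ ∈ S.1 := by
    intro σ
    constructor
    · intro h
      by_contra h2
      rw [(hS σ).2 h2] at h
      cases h
    · exact (hS σ).1
  let seq : ℕ → ℕ → ℕ := fun n k =>
    if ∀ i < n + 1, q (encode (pre (hpath k) i)) = 1 then 1 else 0
  let s : ℕ → ℕ := fun m => seq m.unpair.1 m.unpair.2
  let l : ℕ → ℕ := fun k => if ∀ i, q (encode (pre (hpath k) i)) = 1 then 1 else 0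
  have hgraph : IsGraph GSeq q s := by
    intro m v
    show ((∀ i < m.unpair.1 + 1, q (encode (pre (hpath m.unpair.2) i)) = 1) ∧ v = 1) ∨
      ((∃ i, i < m.unpair.1 + 1 ∧ ¬ q (encode (pre (hpath m.unpair.2) i)) = 1) ∧ v = 0) ↔
      v = if ∀ i < m.unpair.1 + 1, q (encode (pre (hpath m.unpair.2) i)) = 1 then 1 else 0
    by_cases h : ∀ i < m.unpair.1 + 1, q (encode (pre (hpath m.unpair.2) i)) = 1
    · rw [if_pos h]
      constructor
      · rintro (⟨-, h1⟩ | ⟨⟨i, h1, h2⟩, -⟩)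
        · exact h1
        · exact absurd (h i h1) h2
      · exact fun h1 => Or.inl ⟨h, h1⟩
    · rw [if_neg h]
      constructor
      · rintro (⟨h1, -⟩ | ⟨-, h1⟩)
        · exact absurd h1 h
        · exact h1
      · intro h1
        push Not at h
        exact Or.inr ⟨h, h1⟩
  have hlim : Tendsto seq atTop (𝓝 l) := by
    rw [tendsto_pi_nhds]
    intro k
    rw [nhds_discrete, tendsto_pure]
    by_cases h : ∀ i, q (encode (pre (hpath k) i)) = 1
    · refine Eventually.of_forall fun n => ?_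
      show (if ∀ i < n + 1, q (encode (pre (hpath k) i)) = 1 then 1 else 0) =
        if ∀ i, q (encode (pre (hpath k) i)) = 1 then 1 else 0
      rw [if_pos h, if_pos (fun i _ => h i)]
    · have h' := h
      push Not at h'
      obtain ⟨i, hi⟩ := h'
      filter_upwards [eventually_ge_atTop i] with n hn
      show (if ∀ i < n + 1, q (encode (pre (hpath k) i)) = 1 then 1 else 0) =
        if ∀ i, q (encode (pre (hpath k) i)) = 1 then 1 else 0
      rw [if_neg h, if_neg (fun h1 => hi (h1 i (by omega)))]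
  refine ⟨s, seq, hφ' _ _ hgraph, fun n k => by simp [s], ⟨l, hlim⟩, ?_⟩
  intro q' (l' : ℕ → ℕ) hl' hq'
  have hl'' : Tendsto seq atTop (𝓝 l') := hl'
  have hll : l' = l := tendsto_nhds_unique hl'' hlim
  have hq'' : q' = l := (show q' = l' from hq').trans hll
  refine ⟨q', T', hψ' _ _ (isGraph_oddG q q'), ?_, hT'⟩
  have hT'' : T'.1 = {σ | hpath (encode σ) ∈ B.1} := hT'
  intro σ
  have hσ : σ ∈ T'.1 ↔ ∀ i, q (encode (pre (hpath (encode σ)) i)) = 1 := by
    rw [hT'']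
    show hpath (encode σ) ∈ B.1 ↔ _
    rw [← hSB]
    exact forall_congr' fun i => (hqS _).symm
  rw [hσ, hq'']
  exact ⟨fun h => if_pos h, fun h => if_neg h⟩

theorem PK_le_comp : WLe PK (fP.comp gP) := by
  obtain ⟨φ, hφ, hφ'⟩ := exists_machine s01_idG
  obtain ⟨ψ, hψ, hψ'⟩ := exists_machine s01_oddG
  refine ⟨φ, ψ, hφ, hψ, ?_⟩
  rintro T - p hp
  have hker : IsClosed (kernel (body (WT T.1))) := by
    rw [kernel_body]
    exact isClosed_body _
  have hval : ∀ B : ClosedSets.Point, gP T B → {σ | hpath (encode σ) ∈ B.1} = largest T.1 := by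
    intro B hB
    have hB' : B.1 = kernel (body (WT T.1)) := hB
    rw [hB']
    ext σ
    exact hpath_mem_iff T.2 σ
  refine ⟨p, T, hφ' _ _ (isGraph_idG p), hp, ?_, ?_⟩
  · refine ⟨⟨largest T.1, (isPerfectTree_largest _).1⟩, ?_, ⟨_, hker⟩, rfl, ?_⟩
    · intro B hB
      exact ⟨⟨largest T.1, (isPerfectTree_largest _).1⟩, (hval B hB).symm⟩
    · exact (hval ⟨_, hker⟩ rfl).symm
  · rintro q T' ⟨-, B, hB, hBT⟩ hq
    refine ⟨q, T', hψ' _ _ (isGraph_oddG p q), hq, ?_⟩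
    have hBT' : T'.1 = {σ | hpath (encode σ) ∈ B.1} := hBT
    show T'.1 = largest T.1
    rw [hBT', hval B hB]

end Pool.Agent.Lib.MP_a7e1fe_lc
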