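import Pool.Agent.Lib.MP_a7e1fe_lc.Trees

/-!
# Analytic queries
-/

open Set Primrec Encodable
open Pool.Agent.Lib.MP_a8cc1b_lc

namespace Pool.Agent.Lib.MP_a7e1fe_lc

variable {α : Type} [Primcodable α] {β : Type} [Primcodable β]

/-! ### Pairing of finite sequences -/

/-- The first `n` entries of the pairing of two finite sequences. -/
def joinL (s t : List ℕ) (n : ℕ) : List ℕ :=
  (List.range n).map (fun i => if i % 2 = 0 then s.getD (i / 2) 0 else t.getD (i / 2) 0)

theorem joinL_pre (x w : ℕ → ℕ) {m m' n : ℕ} (h : n ≤ 2 * m) (h' : n ≤ 2 * m') :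
    joinL (pre x m) (pre w m') n = pre (join x w) n := by
  apply List.map_congr_left
  intro i hi
  rw [List.mem_range] at hi
  rw [join, pre_getD x 0 _ _ (by omega), pre_getD w 0 _ _ (by omega)]

theorem primrec_joinL {f g : α → List ℕ} {n : α → ℕ} (hf : Primrec f) (hg : Primrec g)
    (hn : Primrec n) : Primrec fun a => joinL (f a) (g a) (n a) := by
  refine list_map (list_range.comp hn) ?_
  have h2 : Primrec fun p : α × ℕ => p.2 / 2 := nat_div.comp snd (Primrec.const 2)
  have h1 : Primrec fun p : α × ℕ => if p.2 % 2 = 0 then (f p.1).getD (p.2 / 2) 0 else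
      (g p.1).getD (p.2 / 2) 0 :=
    Primrec.ite (Primrec.eq.comp (nat_mod.comp snd (Primrec.const 2)) (Primrec.const 0))
      ((list_getD 0).comp (hf.comp fst) h2) ((list_getD 0).comp (hg.comp fst) h2)
  exact h1.to₂

@[simp] theorem join_even (x w : ℕ → ℕ) (k : ℕ) : join x w (2 * k) = x k := by
  rw [join, if_pos (by omega)]
  congr 1
  omega

@[simp] theorem join_odd (x w : ℕ → ℕ) (k : ℕ) : join x w (2 * k + 1) = w k := by
  rw [join, if_neg (by omega)]
  congr 1
  omega

/-- The even entries of a finite sequence. -/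
def evensL (s : List ℕ) : List ℕ := (List.range (s.length / 2)).map (fun i => s.getD (2 * i) 0)

theorem evensL_pre (x : ℕ → ℕ) (l : ℕ) : evensL (pre x (2 * l)) = pre (fun k => x (2 * k)) l := by
  rw [evensL, length_pre, show 2 * l / 2 = l by omega]
  apply List.map_congr_left
  intro i hi
  rw [List.mem_range] at hi
  exact pre_getD x 0 _ _ (by omega)

theorem primrec_evensL : Primrec evensL := by
  refine list_map (list_range.comp (nat_div.comp list_length (Primrec.const 2))) ?_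
  exact ((list_getD 0).comp fst (nat_double.comp snd)).to₂

/-! ### More closure properties of analytic relations -/

theorem s11_exFun {D : (ℕ → ℕ) → α → Prop} (hD : S11 D) :
    S11 (fun x a => ∃ w, D (join x w) a) := by
  obtain ⟨P, hP, hD⟩ := hD
  refine ⟨fun p => P (p.1, joinL p.2.1 (p.2.2.map (fun k => k.unpair.1)) p.2.1.length,
    p.2.2.map (fun k => k.unpair.2)), ?_, ?_⟩
  · refine hP.comp (fst.pair (Primrec.pair ?_ ?_))
    · exact primrec_joinL (fst.comp snd) (list_map (snd.comp snd)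
        (fst.comp (Primrec.unpair.comp snd)).to₂) (list_length.comp (fst.comp snd))
    · exact list_map (snd.comp snd) (snd.comp (Primrec.unpair.comp snd)).to₂
  · intro x a
    constructor
    · rintro ⟨w, hw⟩
      obtain ⟨v, hv⟩ := (hD _ _).mp hw
      refine ⟨fun n => Nat.pair (w n) (v n), fun n => ?_⟩
      simp only [pre_map, Nat.unpair_pair, length_pre]
      rw [joinL_pre x w (by omega) (by omega)]
      exact hv n
    · rintro ⟨u, hu⟩
      refine ⟨fun n => (u n).unpair.1, (hD _ _).mpr ⟨fun n => (u n).unpair.2, fun n => ?_⟩⟩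
      have h := hu n
      simp only [pre_map, length_pre] at h
      rw [joinL_pre x _ (by omega) (by omega)] at h
      exact h

theorem s11_of_pre {Q : α × List ℕ → Prop} (hQ : PrimrecPred Q) {g : α → ℕ} (hg : Primrec g) :
    S11 (fun x a => Q (a, pre x (g a))) := by
  refine ⟨fun p => p.2.1.length = g p.1 → Q (p.1, p.2.1), ?_, ?_⟩
  · exact (Primrec.eq.comp (list_length.comp (fst.comp snd)) (hg.comp fst)).imp'
      (hQ.comp (fst.pair (fst.comp snd)))
  · intro x a
    constructor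
    · intro h
      refine ⟨fun _ => 0, fun n hn => ?_⟩
      simp only [length_pre] at hn
      simp only
      rw [hn]
      exact h
    · rintro ⟨w, hw⟩
      exact hw (g a) (by simp)

theorem primrec_isPrefix : PrimrecPred fun p : List ℕ × List ℕ => p.1 <+: p.2 := by
  refine PrimrecPred.of_eq (p := fun p : List ℕ × List ℕ => p.1 = p.2.take p.1.length) ?_ ?_
  · exact Primrec.eq.comp fst (list_take.comp (list_length.comp fst) snd)
  · intro p
    exact List.prefix_iff_eq_take.symm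

/-! ### Membership in the largest perfect subtree -/

/-- The tree of which the odd part of `x` is the characteristic function. -/
def oddTree (x : ℕ → ℕ) : Set (List ℕ) := {σ | x (2 * encode σ + 1) = 1}

theorem s11_mem_largest : S11 (fun x (σ : List ℕ) => σ ∈ largest (oddTree x)) := by
  -- evaluation of the witness and of the tree
  have e1 : ∀ {γ : Type} [Primcodable γ] (g : γ → List ℕ), Primrec g →
      S11 (fun (y : ℕ → ℕ) (c : γ) => y (2 * encode (g c) + 1) = 1) := by
    intro γ _ g hg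
    exact S11.eval (p := fun q : γ × ℕ => q.2 = 1) (Primrec.eq.comp snd (Primrec.const 1))
      (nat_double_succ.comp (Primrec.encode.comp hg))
  have e1' : ∀ {γ : Type} [Primcodable γ] (g : γ → List ℕ), Primrec g →
      S11 (fun (y : ℕ → ℕ) (c : γ) => ¬ y (2 * encode (g c) + 1) = 1) := by
    intro γ _ g hg
    exact S11.eval (p := fun q : γ × ℕ => ¬ q.2 = 1)
      (Primrec.eq.comp snd (Primrec.const 1)).not
      (nat_double_succ.comp (Primrec.encode.comp hg))
  have e2 : ∀ {γ : Type} [Primcodable γ] (g : γ → List ℕ), Primrec g →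
      S11 (fun (y : ℕ → ℕ) (c : γ) => y (2 * (2 * encode (g c) + 1)) = 1) := by
    intro γ _ g hg
    exact S11.eval (p := fun q : γ × ℕ => q.2 = 1) (Primrec.eq.comp snd (Primrec.const 1))
      (nat_double.comp (nat_double_succ.comp (Primrec.encode.comp hg)))
  have h1 : S11 (fun (y : ℕ → ℕ) (_ : List ℕ) => ∀ τ : List ℕ,
      ¬ y (2 * encode τ + 1) = 1 ∨ y (2 * (2 * encode τ + 1)) = 1) :=
    S11.allB (D := fun (y : ℕ → ℕ) (c : List ℕ × List ℕ) =>
      ¬ y (2 * encode c.2 + 1) = 1 ∨ y (2 * (2 * encode c.2 + 1)) = 1)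
      ((e1' _ snd).or (e2 _ snd))
  have h2 : S11 (fun (y : ℕ → ℕ) (_ : List ℕ) => ∀ τ : List ℕ × List ℕ,
      (¬ τ.1 <+: τ.2 ∨ ¬ y (2 * encode τ.2 + 1) = 1) ∨ y (2 * encode τ.1 + 1) = 1) :=
    S11.allB (D := fun (y : ℕ → ℕ) (c : List ℕ × (List ℕ × List ℕ)) =>
      (¬ c.2.1 <+: c.2.2 ∨ ¬ y (2 * encode c.2.2 + 1) = 1) ∨ y (2 * encode c.2.1 + 1) = 1)
      (((S11.of_primrec (primrec_isPrefix.comp snd).not).or (e1' _ (snd.comp snd))).or
        (e1 _ (fst.comp snd)))
  have h3 : S11 (fun (y : ℕ → ℕ) (_ : List ℕ) => ∀ τ : List ℕ,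
      ¬ y (2 * encode τ + 1) = 1 ∨ ∃ ρ : List ℕ × List ℕ,
      (y (2 * encode ρ.1 + 1) = 1 ∧ y (2 * encode ρ.2 + 1) = 1) ∧
      ((τ <+: ρ.1 ∧ τ <+: ρ.2) ∧ (¬ ρ.1 <+: ρ.2 ∧ ¬ ρ.2 <+: ρ.1))) := by
    refine S11.allB (D := fun (y : ℕ → ℕ) (c : List ℕ × List ℕ) =>
      ¬ y (2 * encode c.2 + 1) = 1 ∨ ∃ ρ : List ℕ × List ℕ,
      (y (2 * encode ρ.1 + 1) = 1 ∧ y (2 * encode ρ.2 + 1) = 1) ∧
      ((c.2 <+: ρ.1 ∧ c.2 <+: ρ.2) ∧ (¬ ρ.1 <+: ρ.2 ∧ ¬ ρ.2 <+: ρ.1))) ?_
    refine (e1' _ snd).or ?_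
    refine S11.exB (D := fun (y : ℕ → ℕ) (c : (List ℕ × List ℕ) × (List ℕ × List ℕ)) =>
      (y (2 * encode c.2.1 + 1) = 1 ∧ y (2 * encode c.2.2 + 1) = 1) ∧
      ((c.1.2 <+: c.2.1 ∧ c.1.2 <+: c.2.2) ∧ (¬ c.2.1 <+: c.2.2 ∧ ¬ c.2.2 <+: c.2.1))) ?_
    refine ((e1 _ (fst.comp snd)).and (e1 _ (snd.comp snd))).and (S11.of_primrec ?_)
    exact ((primrec_isPrefix.comp ((snd.comp fst).pair (fst.comp snd))).and
      (primrec_isPrefix.comp ((snd.comp fst).pair (snd.comp snd)))).and
      ((primrec_isPrefix.comp ((fst.comp snd).pair (snd.comp snd))).not.and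
      (primrec_isPrefix.comp ((snd.comp snd).pair (fst.comp snd))).not)
  have h4 := s11_exFun ((h1.and h2).and (h3.and (e1 (fun σ : List ℕ => σ) Primrec.id)))
  refine h4.of_iff ?_
  intro x σ
  simp only [join_even, join_odd]
  constructor
  · rintro ⟨T', hT', ⟨hP1, hP2⟩, hσ⟩
    classical
    refine ⟨fun n => if Denumerable.ofNat (List ℕ) n ∈ T' then 1 else 0, ⟨?_, ?_⟩, ?_, ?_⟩
    · intro τ
      simp only [Denumerable.ofNat_encode]
      by_cases h : τ ∈ T'
      · exact Or.inr (hT' h)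
      · left
        simp [h]
    · rintro ⟨τ, τ'⟩
      simp only [Denumerable.ofNat_encode]
      by_cases h : τ <+: τ'
      · by_cases h' : τ' ∈ T'
        · right
          simp [hP1 _ _ h h']
        · left; right
          simp [h']
      · exact Or.inl (Or.inl h)
    · intro τ
      simp only [Denumerable.ofNat_encode]
      by_cases h : τ ∈ T'
      · right
        obtain ⟨τ₁, h5, τ₂, h6, h7, h8, h9, h10⟩ := hP2 τ h
        exact ⟨(τ₁, τ₂), ⟨by simp [h5], by simp [h6]⟩, ⟨h7, h8⟩, h9, h10⟩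
      · left
        simp [h]
    · simp [hσ]
  · rintro ⟨w, ⟨h1, h2⟩, h3, h4⟩
    refine ⟨{τ | w (encode τ) = 1}, ?_, ⟨?_, ?_⟩, h4⟩
    · intro τ hτ
      rcases h1 τ with h | h
      · exact absurd hτ h
      · exact h
    · intro τ τ' h hτ'
      rcases h2 (τ, τ') with (h5 | h5) | h5
      · exact absurd h h5
      · exact absurd hτ' h5
      · exact h5
    · intro τ hτ
      rcases h3 τ with h5 | ⟨⟨τ₁, τ₂⟩, ⟨h5, h6⟩, ⟨h7, h8⟩, h9, h10⟩
      · exact absurd hτ h5
      · exact ⟨τ₁, h5, τ₂, h6, h7, h8, h9, h10⟩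

end Pool.Agent.Lib.MP_a7e1fe_lc
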