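import Pool.Agent.Lib.MP_a8cc1b_lc.D11

/-!
# A calculus of semidecidable relations on Baire space
-/

open Primrec Encodable
open Pool.Agent.Lib.MP_a8cc1b_lc

namespace Pool.Agent.Lib.MP_a7e1fe_lc

variable {α : Type} [Primcodable α] {β : Type} [Primcodable β]

/-- Lightface `Σ⁰₁` relations on `ℕ^ℕ × α`. -/
def S01 (R : (ℕ → ℕ) → α → Prop) : Prop :=
  ∃ P : α × List ℕ → Prop, PrimrecPred P ∧ ∀ z a, R z a ↔ ∃ n, P (a, pre z n)

theorem S01.mono {R : (ℕ → ℕ) → α → Prop} (h : S01 R) :
    ∃ P : α × List ℕ → Prop, PrimrecPred P ∧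
      (∀ z a n m, n ≤ m → P (a, pre z n) → P (a, pre z m)) ∧
      ∀ z a, R z a ↔ ∃ n, P (a, pre z n) := by
  obtain ⟨P, hP, hR⟩ := h
  refine ⟨fun p => ∃ i < p.2.length + 1, P (p.1, p.2.take i), ?_, ?_, ?_⟩
  · refine primrecPred_exists_lt (β := α × List ℕ) (R := fun i p => P (p.1, p.2.take i)) ?_
      (Primrec.succ.comp (list_length.comp snd))
    have : Primrec fun q : ℕ × α × List ℕ => ((q.2.1, q.2.2.take q.1) : α × List ℕ) :=
      (fst.comp snd).pair (list_take.comp fst (snd.comp snd))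
    exact hP.comp this
  · rintro z a n m hnm ⟨i, hi, hPi⟩
    simp only [length_pre] at hi hPi ⊢
    rw [pre_take _ _ _ (Nat.lt_succ_iff.mp hi)] at hPi
    exact ⟨i, by omega, by rw [pre_take _ _ _ (by omega)]; exact hPi⟩
  · intro z a
    rw [hR]
    constructor
    · rintro ⟨n, hn⟩
      refine ⟨n, n, by simp, ?_⟩
      simp only
      rw [pre_take _ _ _ le_rfl]
      exact hn
    · rintro ⟨n, i, hi, hPi⟩
      simp only [length_pre] at hi hPi
      rw [pre_take _ _ _ (Nat.lt_succ_iff.mp hi)] at hPi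
      exact ⟨i, hPi⟩

theorem S01.of_iff {R S : (ℕ → ℕ) → α → Prop} (h : S01 R) (hE : ∀ z a, S z a ↔ R z a) :
    S01 S := by
  obtain ⟨P, hP, hR⟩ := h
  exact ⟨P, hP, fun z a => (hE z a).trans (hR z a)⟩

theorem S01.comp {R : (ℕ → ℕ) → β → Prop} (h : S01 R) {g : α → β} (hg : Primrec g) :
    S01 (fun z a => R z (g a)) := by
  obtain ⟨P, hP, hR⟩ := h
  exact ⟨fun p => P (g p.1, p.2), hP.comp ((hg.comp fst).pair snd), fun z a => hR z (g a)⟩

theorem S01.of_primrec {p : α → Prop} (hp : PrimrecPred p) : S01 (fun (_ : ℕ → ℕ) a => p a) :=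
  ⟨fun q => p q.1, hp.comp fst, fun _ _ => ⟨fun h => ⟨0, h⟩, fun ⟨_, h⟩ => h⟩⟩

theorem S01.of_pre {P : α × List ℕ → Prop} (hP : PrimrecPred P) {g : α → ℕ} (hg : Primrec g) :
    S01 (fun z a => P (a, pre z (g a))) := by
  refine ⟨fun p => p.2.length = g p.1 ∧ P p, ?_, ?_⟩
  · exact (Primrec.eq.comp (list_length.comp snd) (hg.comp fst)).and hP
  · intro z a
    constructor
    · intro h
      exact ⟨g a, by simp, h⟩
    · rintro ⟨n, hn, h⟩
      simp only [length_pre] at hn
      rw [← hn]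
      exact h

theorem S01.eval {p : α × ℕ → Prop} (hp : PrimrecPred p) {g : α → ℕ} (hg : Primrec g) :
    S01 (fun (z : ℕ → ℕ) a => p (a, z (g a))) := by
  have h1 : PrimrecPred fun q : α × List ℕ => p (q.1, q.2.getD (g q.1) 0) :=
    hp.comp (fst.pair ((list_getD 0).comp snd (hg.comp fst)))
  refine (S01.of_pre h1 (Primrec.succ.comp hg)).of_iff ?_
  intro z a
  simp only
  rw [pre_getD z 0 _ _ (Nat.lt_succ_self _)]

theorem S01.and {R S : (ℕ → ℕ) → α → Prop} (hR : S01 R) (hS : S01 S) :
    S01 (fun z a => R z a ∧ S z a) := by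
  obtain ⟨P, hP, hm, hR⟩ := hR.mono
  obtain ⟨Q, hQ, hm', hS⟩ := hS.mono
  refine ⟨fun p => P p ∧ Q p, hP.and hQ, ?_⟩
  intro z a
  show R z a ∧ S z a ↔ ∃ n, P (a, pre z n) ∧ Q (a, pre z n)
  rw [hR, hS]
  constructor
  · rintro ⟨⟨n, hn⟩, m, hm2⟩
    exact ⟨max n m, hm _ _ _ _ (le_max_left _ _) hn, hm' _ _ _ _ (le_max_right _ _) hm2⟩
  · rintro ⟨n, h1, h2⟩
    exact ⟨⟨n, h1⟩, n, h2⟩

theorem S01.or {R S : (ℕ → ℕ) → α → Prop} (hR : S01 R) (hS : S01 S) :
    S01 (fun z a => R z a ∨ S z a) := by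
  obtain ⟨P, hP, hR⟩ := hR
  obtain ⟨Q, hQ, hS⟩ := hS
  refine ⟨fun p => P p ∨ Q p, hP.or hQ, ?_⟩
  intro z a
  show R z a ∨ S z a ↔ ∃ n, P (a, pre z n) ∨ Q (a, pre z n)
  rw [hR, hS, exists_or]

theorem S01.exN {R : (ℕ → ℕ) → α × ℕ → Prop} (hR : S01 R) :
    S01 (fun z a => ∃ m, R z (a, m)) := by
  obtain ⟨P, hP, hm, hR⟩ := hR.mono
  refine ⟨fun p => ∃ m < p.2.length, P ((p.1, m), p.2), ?_, ?_⟩
  · refine primrecPred_exists_lt (β := α × List ℕ) (R := fun m p => P ((p.1, m), p.2)) ?_
      (list_length.comp snd)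
    have : Primrec fun q : ℕ × α × List ℕ => (((q.2.1, q.1), q.2.2) : (α × ℕ) × List ℕ) :=
      ((fst.comp snd).pair fst).pair (snd.comp snd)
    exact hP.comp this
  · intro z a
    constructor
    · rintro ⟨m, h⟩
      obtain ⟨n, hn⟩ := (hR _ _).mp h
      exact ⟨max n (m + 1), m, by simp, hm _ _ _ _ (le_max_left _ _) hn⟩
    · rintro ⟨n, m, -, h⟩
      exact ⟨m, (hR _ _).mpr ⟨n, h⟩⟩

theorem S01.decodeCase {R : (ℕ → ℕ) → α × β → Prop} (hR : S01 R) :
    S01 (fun z (a : α × ℕ) => ∃ b, decode a.2 = some b ∧ R z (a.1, b)) := by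
  classical
  obtain ⟨P, hP, hR⟩ := hR
  obtain ⟨dec, hP'⟩ := hP
  refine ⟨fun p => (Option.casesOn (decode (α := β) p.1.2) false
    (fun b => decide (P ((p.1.1, b), p.2))) : Bool) = true, ?_, ?_⟩
  · have h1 : Primrec fun p : (α × ℕ) × List ℕ =>
        (Option.casesOn (decode (α := β) p.1.2) false
          (fun b => decide (P ((p.1.1, b), p.2))) : Bool) := by
      refine option_casesOn (Primrec.decode.comp (snd.comp fst)) (Primrec.const _) ?_
      have h2 : Primrec fun q : ((α × ℕ) × List ℕ) × β =>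
          (((q.1.1.1, q.2), q.1.2) : (α × β) × List ℕ) :=
        ((fst.comp (fst.comp fst)).pair snd).pair (snd.comp fst)
      exact (hP'.comp h2).to₂
    exact ⟨inferInstance, h1.of_eq (fun p => by simp)⟩
  · intro z a
    show _ ↔ ∃ n, (Option.casesOn (decode (α := β) a.2) false
      (fun b => decide (P ((a.1, b), pre z n))) : Bool) = true
    rcases h : (decode (α := β) a.2) with _ | b
    · simp [h]
    · simp [h, hR]

theorem S01.ex {R : (ℕ → ℕ) → α × β → Prop} (hR : S01 R) :
    S01 (fun z a => ∃ b, R z (a, b)) := by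
  refine hR.decodeCase.exN.of_iff ?_
  intro z a
  constructor
  · rintro ⟨b, hb⟩
    exact ⟨encode b, b, encodek b, hb⟩
  · rintro ⟨m, b, -, hb⟩
    exact ⟨b, hb⟩

theorem S01.ball {R : (ℕ → ℕ) → α × ℕ → Prop} (hR : S01 R) {g : α → ℕ} (hg : Primrec g) :
    S01 (fun z a => ∀ i < g a, R z (a, i)) := by
  obtain ⟨P, hP, hm, hR⟩ := hR.mono
  refine ⟨fun p => ∀ i < g p.1, P ((p.1, i), p.2), ?_, ?_⟩
  · refine primrecPred_forall_lt (β := α × List ℕ) (R := fun m p => P ((p.1, m), p.2)) ?_
      (hg.comp fst)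
    have : Primrec fun q : ℕ × α × List ℕ => (((q.2.1, q.1), q.2.2) : (α × ℕ) × List ℕ) :=
      ((fst.comp snd).pair fst).pair (snd.comp snd)
    exact hP.comp this
  · intro z a
    constructor
    · intro h
      have key : ∀ l, l ≤ g a → ∃ n, ∀ i < l, P ((a, i), pre z n) := by
        intro l
        induction l with
        | zero => exact fun _ => ⟨0, fun i hi => absurd hi (Nat.not_lt_zero i)⟩
        | succ l IH =>
          intro hl
          obtain ⟨n, hn⟩ := IH (by omega)
          obtain ⟨m, hm2⟩ := (hR _ _).mp (h l (by omega))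
          refine ⟨max n m, fun i hi => ?_⟩
          rcases Nat.lt_succ_iff_lt_or_eq.mp hi with h1 | h1
          · exact hm _ _ _ _ (le_max_left _ _) (hn i h1)
          · rw [h1]
            exact hm _ _ _ _ (le_max_right _ _) hm2
      exact key (g a) le_rfl
    · rintro ⟨n, hn⟩ i hi
      exact (hR _ _).mpr ⟨n, hn i hi⟩

/-- The graph of a computable function is semidecidable. -/
theorem S01.graph {g : α → β} (hg : Computable g) :
    S01 (fun (_ : ℕ → ℕ) (p : α × β) => g p.1 = p.2) := by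
  obtain ⟨c, hc⟩ := Nat.Partrec.Code.exists_code.mp hg
  have key : ∀ (a : α) (b : β), g a = b ↔
      ∃ k, Nat.Partrec.Code.evaln k c (encode a) = some (encode b) := by
    intro a b
    have h1 : encode b ∈ c.eval (encode a) ↔ g a = b := by
      rw [hc]
      simp [eq_comm]
    rw [← h1, Nat.Partrec.Code.evaln_complete]
    simp only [Option.mem_def]
  have h2 : PrimrecPred fun q : (α × β) × ℕ =>
      Nat.Partrec.Code.evaln q.2 c (encode q.1.1) = some (encode q.1.2) := by
    refine Primrec.eq.comp ?_ (option_some.comp (Primrec.encode.comp (snd.comp fst)))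
    exact Nat.Partrec.Code.primrec_evaln.comp
      ((snd.pair (Primrec.const c)).pair (Primrec.encode.comp (fst.comp fst)))
  refine (S01.of_primrec h2).exN.of_iff ?_
  intro x p
  exact key p.1 p.2

/-- Substitution of a computable function. -/
theorem S01.comp' {R : (ℕ → ℕ) → β → Prop} (h : S01 R) {g : α → β} (hg : Computable g) :
    S01 (fun z a => R z (g a)) := by
  have h1 : S01 (fun (z : ℕ → ℕ) (p : α × β) => g p.1 = p.2 ∧ R z p.2) :=
    (S01.graph hg).and (h.comp snd)
  refine h1.ex.of_iff ?_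
  intro x a
  constructor
  · intro h
    exact ⟨g a, rfl, h⟩
  · rintro ⟨b, hb, hb'⟩
    have : g a = b := hb
    rw [this]
    exact hb'

/-- Substitution of an initial segment of the oracle. -/
theorem S01.preSubst {R : (ℕ → ℕ) → α × List ℕ → Prop} (h : S01 R) {g : α → ℕ}
    (hg : Primrec g) : S01 (fun z a => R z (a, pre z (g a))) := by
  have h1 : S01 (fun (z : ℕ → ℕ) (p : α × List ℕ) => pre z (g p.1) = p.2 ∧ R z p) := by
    refine S01.and ?_ h
    exact S01.of_pre (P := fun q : (α × List ℕ) × List ℕ => q.2 = q.1.2)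
      (Primrec.eq.comp snd (snd.comp fst)) (hg.comp fst)
  refine h1.ex.of_iff ?_
  intro z a
  constructor
  · intro h
    exact ⟨_, rfl, h⟩
  · rintro ⟨b, hb, hb'⟩
    have : pre z (g a) = b := hb
    rw [this]
    exact hb'

/-! ### Machines -/

/-- The oracle machine given by `φ` outputs `v` on input `n`. -/
def Outputs (φ : List ℕ × ℕ → Option ℕ) (z : ℕ → ℕ) (n v : ℕ) : Prop :=
  ∃ m, φ (pre z m, n) = some v ∧ ∀ m' < m, φ (pre z m', n) = none

theorem S01.outputs {φ : List ℕ × ℕ → Option ℕ} (hφ : Computable φ) :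
    S01 (fun z (p : ℕ × ℕ) => Outputs φ z p.1 p.2) := by
  have h1 : S01 (fun z (p : (ℕ × ℕ) × ℕ) => φ (pre z p.2, p.1.1) = some p.1.2) := by
    have h2 : S01 (fun (_ : ℕ → ℕ) (q : ((ℕ × ℕ) × ℕ) × List ℕ) =>
        φ (q.2, q.1.1.1) = some q.1.1.2) := by
      have := (S01.graph hφ).comp (g := fun q : ((ℕ × ℕ) × ℕ) × List ℕ =>
        ((q.2, q.1.1.1), some q.1.1.2))
        ((snd.pair (fst.comp (fst.comp fst))).pair (option_some.comp (snd.comp (fst.comp fst))))
      exact this
    exact h2.preSubst snd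
  have h3 : S01 (fun z (p : ((ℕ × ℕ) × ℕ) × ℕ) => φ (pre z p.2, p.1.1.1) = none) := by
    have h2 : S01 (fun (_ : ℕ → ℕ) (q : (((ℕ × ℕ) × ℕ) × ℕ) × List ℕ) =>
        φ (q.2, q.1.1.1.1) = none) := by
      have := (S01.graph hφ).comp (g := fun q : (((ℕ × ℕ) × ℕ) × ℕ) × List ℕ =>
        ((q.2, q.1.1.1.1), (none : Option ℕ)))
        ((snd.pair (fst.comp (fst.comp (fst.comp fst)))).pair (Primrec.const none))
      exact this
    exact h2.preSubst snd
  exact (h1.and (h3.ball snd)).exN

theorem outputs_unique {φ : List ℕ × ℕ → Option ℕ} {z : ℕ → ℕ} {n a b : ℕ}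
    (ha : Outputs φ z n a) (hb : Outputs φ z n b) : a = b := by
  obtain ⟨m, h1, h2⟩ := ha
  obtain ⟨m', h3, h4⟩ := hb
  rcases lt_trichotomy m m' with h | h | h
  · rw [h4 m h] at h1
    cases h1
  · subst h
    rw [h1] at h3
    exact Option.some.inj h3
  · rw [h2 m' h] at h3
    cases h3

/-- `G` is, at the oracle `z`, the graph of the sequence `y`. -/
def IsGraph (G : (ℕ → ℕ) → ℕ × ℕ → Prop) (z y : ℕ → ℕ) : Prop := ∀ n v, G z (n, v) ↔ v = y n

theorem isGraph_outputs {φ : List ℕ × ℕ → Option ℕ} {z y : ℕ → ℕ}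
    (h : ∀ n, Outputs φ z n (y n)) : IsGraph (fun z p => Outputs φ z p.1 p.2) z y := by
  intro n v
  constructor
  · intro h1
    exact outputs_unique h1 (h n)
  · rintro rfl
    exact h n

/-- A semidecidable graph is computed by a machine. -/
theorem exists_machine {G : (ℕ → ℕ) → ℕ × ℕ → Prop} (hG : S01 G) :
    ∃ φ : List ℕ × ℕ → Option ℕ, Computable φ ∧ ∀ z y, IsGraph G z y → ∀ n,
      Outputs φ z n (y n) := by
  classical
  obtain ⟨P, ⟨hdec, hP⟩, hm, hR⟩ := hG.mono
  let φ : List ℕ × ℕ → Option ℕ := fun q =>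
    if (List.range q.1.length).findIdx (fun v => decide (P ((q.2, v), q.1))) < q.1.length then
      some ((List.range q.1.length).findIdx (fun v => decide (P ((q.2, v), q.1)))) else none
  have hidx : Primrec fun q : List ℕ × ℕ =>
      (List.range q.1.length).findIdx (fun v => decide (P ((q.2, v), q.1))) := by
    refine list_findIdx (list_range.comp (list_length.comp fst)) ?_
    have : Primrec fun r : (List ℕ × ℕ) × ℕ => (((r.1.2, r.2), r.1.1) : (ℕ × ℕ) × List ℕ) :=
      ((snd.comp fst).pair snd).pair (fst.comp fst)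
    exact (hP.comp this).to₂
  have hφ : Primrec φ := Primrec.ite (nat_lt.comp hidx (list_length.comp fst))
    (option_some.comp hidx) (Primrec.const none)
  refine ⟨φ, hφ.to_comp, ?_⟩
  intro z y hy n
  have hsome : ∀ m v, φ (pre z m, n) = some v → v = y n := by
    intro m v hv
    simp only [φ, length_pre] at hv
    split_ifs at hv with hlt
    have hv' := Option.some.inj hv
    have h1 := List.findIdx_getElem (xs := List.range m)
      (p := fun v => decide (P ((n, v), pre z m))) (w := by simpa using hlt)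
    simp only [List.getElem_range, decide_eq_true_eq] at h1
    rw [hv'] at h1
    exact (hy n v).mp ((hR _ _).mpr ⟨m, h1⟩)
  have hex : ∃ m, φ (pre z m, n) ≠ none := by
    obtain ⟨m0, hm0⟩ := (hR z (n, y n)).mp ((hy n (y n)).mpr rfl)
    refine ⟨max m0 (y n + 1), ?_⟩
    have h1 : P ((n, y n), pre z (max m0 (y n + 1))) := hm _ _ _ _ (le_max_left _ _) hm0
    have h2 : (List.range (max m0 (y n + 1))).findIdx
        (fun v => decide (P ((n, v), pre z (max m0 (y n + 1))))) <
        (List.range (max m0 (y n + 1))).length := by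
      apply List.findIdx_lt_length_of_exists
      refine ⟨y n, ?_, by simpa using h1⟩
      simp
    simp only [List.length_range] at h2
    simp only [φ, length_pre]
    rw [if_pos h2]
    simp
  refine ⟨Nat.find hex, ?_, ?_⟩
  · have h1 := Nat.find_spec hex
    obtain ⟨v, hv⟩ := Option.ne_none_iff_exists'.mp h1
    rw [hv, hsome _ _ hv]
  · intro m' hm'
    have := Nat.find_min hex hm'
    push Not at this
    exact this

/-- Substitution of a sequence with semidecidable graph for the oracle. -/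
theorem S01.subst {R : (ℕ → ℕ) → α → Prop} (hR : S01 R) {G : (ℕ → ℕ) → ℕ × ℕ → Prop}
    (hG : S01 G) : ∃ R' : (ℕ → ℕ) → α → Prop, S01 R' ∧
      ∀ z y, IsGraph G z y → ∀ a, R' z a ↔ R y a := by
  obtain ⟨P, hP, hR⟩ := hR
  refine ⟨fun z a => ∃ s : List ℕ, (∀ i < s.length, G z (i, s.getD i 0)) ∧ P (a, s), ?_, ?_⟩
  · have h1 : S01 (fun z (q : α × List ℕ) => (∀ i < q.2.length, G z (i, q.2.getD i 0)) ∧
        P (q.1, q.2)) := by
      apply S01.and
      · apply S01.ball (R := fun z (r : (α × List ℕ) × ℕ) => G z (r.2, r.1.2.getD r.2 0))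
        · exact hG.comp (g := fun r : (α × List ℕ) × ℕ => (r.2, r.1.2.getD r.2 0))
            (snd.pair ((list_getD 0).comp (snd.comp fst) snd))
        · exact list_length.comp snd
      · exact S01.of_primrec hP
    exact h1.ex
  · intro z y hy a
    rw [hR]
    have key : ∀ s : List ℕ, (∀ i < s.length, G z (i, s.getD i 0)) ↔ s = pre y s.length := by
      intro s
      constructor
      · intro h
        apply List.ext_getElem
        · simp
        · intro i h1 h2
          have h3 := (hy _ _).mp (h i h1)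
          rw [List.getD_eq_getElem _ _ h1] at h3
          rw [h3]
          simp [pre]
      · intro h i hi
        rw [hy]
        conv_lhs => rw [h]
        rw [pre_getD y 0 _ _ (by simpa using hi)]
    constructor
    · rintro ⟨s, h1, h2⟩
      rw [key] at h1
      exact ⟨s.length, by rw [← h1]; exact h2⟩
    · rintro ⟨n, hn⟩
      exact ⟨pre y n, (key _).mpr (by simp), hn⟩

/-- Uniformization of semidecidable relations. -/
theorem S01.unif {R : (ℕ → ℕ) → α × β → Prop} (hR : S01 R) :
    ∃ U : (ℕ → ℕ) → α × β → Prop, S01 U ∧ (∀ z a b, U z (a, b) → R z (a, b)) ∧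
      (∀ z a b b', U z (a, b) → U z (a, b') → b = b') ∧
      (∀ z a b, R z (a, b) → ∃ b', U z (a, b')) := by
  classical
  obtain ⟨P, hP, hR⟩ := hR
  let Q : (ℕ → ℕ) → α → ℕ → Prop := fun z a e =>
    ∃ b : β, encode b = e.unpair.1 ∧ P ((a, b), pre z e.unpair.2)
  -- the decidable form of `Q`
  have hPe : PrimrecPred fun r : ((α × ℕ) × List ℕ) × β =>
      encode r.2 = r.1.1.2.unpair.1 ∧ P ((r.1.1.1, r.2), r.1.2) := by
    apply PrimrecPred.and
    · exact Primrec.eq.comp (Primrec.encode.comp snd)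
        (fst.comp (Primrec.unpair.comp (snd.comp (fst.comp fst))))
    · have h2 : Primrec fun q : ((α × ℕ) × List ℕ) × β =>
          (((q.1.1.1, q.2), q.1.2) : (α × β) × List ℕ) :=
        ((fst.comp (fst.comp fst)).pair snd).pair (snd.comp fst)
      exact hP.comp h2
  obtain ⟨dec, hPe'⟩ := hPe
  let Q' : (α × ℕ) × List ℕ → Bool := fun q =>
    Option.casesOn (decode (α := β) q.1.2.unpair.1) false
      (fun b => @decide _ (dec (q, b)))
  have hQ' : Primrec Q' :=
    option_casesOn (Primrec.decode.comp (fst.comp (Primrec.unpair.comp (snd.comp fst))))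
      (Primrec.const _) hPe'.to₂
  have hQQ' : ∀ z a e, Q z a e ↔ Q' ((a, e), pre z e.unpair.2) = true := by
    intro z a e
    show (∃ b : β, encode b = e.unpair.1 ∧ P ((a, b), pre z e.unpair.2)) ↔
      (Option.casesOn (decode (α := β) e.unpair.1) false
        (fun b => @decide _ (dec (((a, e), pre z e.unpair.2), b))) : Bool) = true
    constructor
    · rintro ⟨b, hb, h⟩
      have h1 : decode (α := β) e.unpair.1 = some b := by rw [← hb]; exact encodek b
      rw [h1]
      exact @decide_eq_true _ (dec (((a, e), pre z e.unpair.2), b)) ⟨hb, h⟩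
    · rcases h1 : decode (α := β) e.unpair.1 with _ | b
      · intro h
        cases h
      · intro h
        have h2 : encode b = e.unpair.1 ∧ P ((a, b), pre z e.unpair.2) :=
          @of_decide_eq_true _ (dec (((a, e), pre z e.unpair.2), b)) h
        exact ⟨b, h2.1, h2.2⟩
  have hnQ : S01 (fun z (q : ((α × β) × ℕ) × ℕ) => ¬ Q z q.1.1.1 q.2) := by
    have h1 : PrimrecPred fun r : (((α × β) × ℕ) × ℕ) × List ℕ =>
        Q' ((r.1.1.1.1, r.1.2), r.2) = false := by
      have : Primrec fun r : (((α × β) × ℕ) × ℕ) × List ℕ => Q' ((r.1.1.1.1, r.1.2), r.2) :=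
        hQ'.comp (((fst.comp (fst.comp (fst.comp fst))).pair (snd.comp fst)).pair snd)
      exact Primrec.eq.comp this (Primrec.const false)
    refine (S01.of_pre h1 (g := fun q => q.2.unpair.2)
      (snd.comp (Primrec.unpair.comp snd))).of_iff ?_
    intro z q
    rw [hQQ', Bool.not_eq_true]
  refine ⟨fun z q => ∃ e : ℕ, (e.unpair.1 = encode q.2 ∧ P (q, pre z e.unpair.2)) ∧
    ∀ e' < e, ¬ Q z q.1 e', ?_, ?_, ?_, ?_⟩
  · have h1 : S01 (fun z (q : (α × β) × ℕ) => (q.2.unpair.1 = encode q.1.2 ∧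
        P (q.1, pre z q.2.unpair.2)) ∧ ∀ e' < q.2, ¬ Q z q.1.1 e') := by
      refine S01.and (S01.and ?_ ?_) (hnQ.ball snd)
      · exact S01.of_primrec (Primrec.eq.comp (fst.comp (Primrec.unpair.comp snd))
          (Primrec.encode.comp (snd.comp fst)))
      · exact S01.of_pre (P := fun r : ((α × β) × ℕ) × List ℕ => P (r.1.1, r.2))
          (hP.comp ((fst.comp fst).pair snd)) (snd.comp (Primrec.unpair.comp snd))
    exact h1.exN
  · rintro z a b ⟨e, ⟨-, h⟩, -⟩
    exact (hR _ _).mpr ⟨_, h⟩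
  · rintro z a b b' ⟨e, ⟨h1, h2⟩, h3⟩ ⟨e', ⟨h1', h2'⟩, h3'⟩
    have hQe : Q z a e := ⟨b, h1.symm, h2⟩
    have hQe' : Q z a e' := ⟨b', h1'.symm, h2'⟩
    rcases lt_trichotomy e e' with h | h | h
    · exact absurd hQe (h3' e h)
    · subst h
      rw [h1] at h1'
      exact encode_injective h1'
    · exact absurd hQe' (h3 e' h)
  · intro z a b h
    obtain ⟨n, hn⟩ := (hR _ _).mp h
    have hex : ∃ e, Q z a e := ⟨Nat.pair (encode b) n, b, by simp, by simpa using hn⟩
    obtain ⟨b', hb1, hb2⟩ := Nat.find_spec hex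
    exact ⟨b', Nat.find hex, ⟨hb1.symm, hb2⟩, fun e' he' => Nat.find_min hex he'⟩

/-- Iteration of a semidecidable step relation. -/
theorem S01.iter {Step : (ℕ → ℕ) → (ℕ × β) × β → Prop} (h : S01 Step) (init : β) :
    ∃ It : (ℕ → ℕ) → ℕ × β → Prop, S01 It ∧ ∀ (z : ℕ → ℕ) (st : ℕ → β), st 0 = init →
      (∀ t c', Step z ((t, st t), c') ↔ c' = st (t + 1)) → ∀ t c, It z (t, c) ↔ c = st t := by
  refine ⟨fun z q => ∃ L : List β, (L[0]? = some init ∧ L[q.1]? = some q.2) ∧
    ∀ i < q.1, ∃ c : β × β, (L[i]? = some c.1 ∧ L[i + 1]? = some c.2) ∧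
      Step z ((i, c.1), c.2), ?_, ?_⟩
  · have h1 : S01 (fun z (q : (ℕ × β) × List β) => (q.2[0]? = some init ∧
        q.2[q.1.1]? = some q.1.2) ∧ ∀ i < q.1.1, ∃ c : β × β, (q.2[i]? = some c.1 ∧
        q.2[i + 1]? = some c.2) ∧ Step z ((i, c.1), c.2)) := by
      apply S01.and
      · apply S01.of_primrec
        apply PrimrecPred.and
        · exact Primrec.eq.comp (list_getElem?.comp snd (Primrec.const 0)) (Primrec.const _)
        · exact Primrec.eq.comp (list_getElem?.comp snd (fst.comp fst))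
            (option_some.comp (snd.comp fst))
      · apply S01.ball (R := fun z (r : ((ℕ × β) × List β) × ℕ) => ∃ c : β × β,
          (r.1.2[r.2]? = some c.1 ∧ r.1.2[r.2 + 1]? = some c.2) ∧ Step z ((r.2, c.1), c.2))
        · have h2 : S01 (fun z (r : (((ℕ × β) × List β) × ℕ) × (β × β)) =>
              (r.1.1.2[r.1.2]? = some r.2.1 ∧ r.1.1.2[r.1.2 + 1]? = some r.2.2) ∧
              Step z ((r.1.2, r.2.1), r.2.2)) := by
            apply S01.and
            · apply S01.of_primrec
              apply PrimrecPred.and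
              · exact Primrec.eq.comp (list_getElem?.comp (snd.comp (fst.comp fst))
                  (snd.comp fst)) (option_some.comp (fst.comp snd))
              · exact Primrec.eq.comp (list_getElem?.comp (snd.comp (fst.comp fst))
                  (Primrec.succ.comp (snd.comp fst))) (option_some.comp (snd.comp snd))
            · exact h.comp (g := fun r : (((ℕ × β) × List β) × ℕ) × (β × β) =>
                ((r.1.2, r.2.1), r.2.2)) (((snd.comp fst).pair (fst.comp snd)).pair
                (snd.comp snd))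
          exact h2.ex
        · exact fst.comp fst
    exact h1.ex
  · intro z st h0 hst t c
    constructor
    · rintro ⟨L, ⟨hL0, hLt⟩, hL⟩
      have key : ∀ i, i ≤ t → L[i]? = some (st i) := by
        intro i
        induction i with
        | zero => exact fun _ => by rw [h0]; exact hL0
        | succ i IH =>
          intro hi
          obtain ⟨c, ⟨hc1, hc2⟩, hc3⟩ := hL i (by omega)
          rw [IH (by omega)] at hc1
          have h1 := Option.some.inj hc1
          rw [← h1, hst] at hc3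
          rw [hc2, hc3]
      rw [key t le_rfl] at hLt
      exact (Option.some.inj hLt).symm
    · rintro rfl
      refine ⟨pre st (t + 1), ⟨?_, ?_⟩, ?_⟩
      · simp [pre, h0]
      · simp [pre]
      · intro i hi
        refine ⟨(st i, st (i + 1)), ⟨?_, ?_⟩, (hst _ _).mpr rfl⟩
        · simp [pre, List.getElem?_range (show i < t + 1 by omega)]
        · simp [pre, List.getElem?_range (show i + 1 < t + 1 by omega)]

end Pool.Agent.Lib.MP_a7e1fe_lc
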