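import Pool.Agent.Lib.MP_a7e1fe_lc.Defs

/-!
# Perfect trees
-/

open Set Filter Topology
open Pool.Agent.Lib.MP_a8cc1b_lc

namespace Pool.Agent.Lib.MP_a7e1fe_lc

theorem largest_subset (T : Set (List ℕ)) : largest T ⊆ T := by
  rintro σ ⟨T', hT', -, hσ⟩
  exact hT' hσ

theorem isPerfectTree_largest (T : Set (List ℕ)) : IsPerfectTree (largest T) := by
  constructor
  · rintro σ τ h ⟨T', hT', hP, hτ⟩
    exact ⟨T', hT', hP, hP.1 σ τ h hτ⟩
  · rintro σ ⟨T', hT', hP, hσ⟩
    obtain ⟨τ₁, h1, τ₂, h2, h3⟩ := hP.2 σ hσ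
    exact ⟨τ₁, ⟨T', hT', hP, h1⟩, τ₂, ⟨T', hT', hP, h2⟩, h3⟩

theorem IsPerfectTree.exists_longer {P : Set (List ℕ)} (hP : IsPerfectTree P) {σ : List ℕ}
    (hσ : σ ∈ P) : ∃ τ ∈ P, σ <+: τ ∧ σ.length < τ.length := by
  obtain ⟨τ₁, h1, τ₂, h2, h3, h4, h5, h6⟩ := hP.2 σ hσ
  refine ⟨τ₁, h1, h3, ?_⟩
  rcases Nat.lt_or_eq_of_le h3.length_le with h | h
  · exact h
  · have := h3.eq_of_length h
    rw [← this] at h5
    exact absurd h4 h5

/-- Every element of a perfect tree is on a path. -/
theorem IsPerfectTree.exists_path {P : Set (List ℕ)} (hP : IsPerfectTree P) {σ : List ℕ}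
    (hσ : σ ∈ P) : ∃ g ∈ body P, pre g σ.length = σ := by
  classical
  have hex : ∀ τ : List ℕ, ∃ τ', τ ∈ P → τ' ∈ P ∧ τ <+: τ' ∧ τ.length < τ'.length := by
    intro τ
    by_cases h : τ ∈ P
    · obtain ⟨τ', h1, h2, h3⟩ := hP.exists_longer h
      exact ⟨τ', fun _ => ⟨h1, h2, h3⟩⟩
    · exact ⟨τ, fun h' => absurd h' h⟩
  choose e he using hex
  let τ : ℕ → List ℕ := fun n => Nat.rec σ (fun _ t => e t) n
  have hτ : ∀ n, τ n ∈ P := by
    intro n
    induction n with
    | zero => exact hσ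
    | succ n IH => exact (he _ IH).1
  have hpre : ∀ n, τ n <+: τ (n + 1) := fun n => (he _ (hτ n)).2.1
  have hlen : ∀ n, n ≤ (τ n).length := by
    intro n
    induction n with
    | zero => exact Nat.zero_le _
    | succ n IH => exact lt_of_le_of_lt IH (he _ (hτ n)).2.2
  obtain ⟨g, hg⟩ := exists_limit τ hpre hlen
  refine ⟨g, fun n => ?_, (hg 0).symm⟩
  have h1 := pre_isPrefix g (hlen n)
  rw [← hg n] at h1
  exact hP.1 _ _ h1 (hτ n)

theorem perfect_body {P : Set (List ℕ)} (hP : IsPerfectTree P) : Perfect (body P) := by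
  refine ⟨isClosed_body P, ?_⟩
  intro g hg
  rw [accPt_iff_nhds]
  intro U hU
  obtain ⟨n, hn⟩ := mem_nhds_iff_pre.mp hU
  obtain ⟨τ₁, h1, τ₂, h2, h3, h4, h5, h6⟩ := hP.2 _ (hg n)
  obtain ⟨g1, hg1, hg1'⟩ := hP.exists_path h1
  obtain ⟨g2, hg2, hg2'⟩ := hP.exists_path h2
  have hU1 : g1 ∈ U := by
    apply hn
    rw [← hg1'] at h3
    have := eq_pre_of_isPrefix h3
    rw [length_pre] at this
    exact this.symm
  have hU2 : g2 ∈ U := by
    apply hn
    rw [← hg2'] at h4
    have := eq_pre_of_isPrefix h4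
    rw [length_pre] at this
    exact this.symm
  have hne : g1 ≠ g2 := by
    intro h
    rw [← h] at hg2'
    rcases comparable_pre g1 τ₁.length τ₂.length with h7 | h7
    · rw [hg1', hg2'] at h7
      exact h5 h7
    · rw [hg1', hg2'] at h7
      exact h6 h7
  by_cases h7 : g1 = g
  · exact ⟨g2, ⟨hU2, hg2⟩, fun h8 => hne (h7.trans h8.symm)⟩
  · exact ⟨g1, ⟨hU1, hg1⟩, h7⟩

/-- The perfect kernel of the body of a tree is the body of the largest perfect subtree. -/
theorem kernel_body (T : Set (List ℕ)) : kernel (body T) = body (largest T) := by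
  apply Set.Subset.antisymm
  · rintro g ⟨C, ⟨hC1, hC2⟩, hg⟩ n
    refine ⟨{σ | ∃ h ∈ C, ∃ m, σ = pre h m}, ?_, ⟨?_, ?_⟩, g, hg, n, rfl⟩
    · rintro _ ⟨h, hh, m, rfl⟩
      exact hC1 hh m
    · rintro σ _ h ⟨h', hh', m, rfl⟩
      exact ⟨h', hh', _, eq_pre_of_isPrefix h⟩
    · rintro _ ⟨h, hh, m, rfl⟩
      have hacc := accPt_iff_nhds.mp (hC2.acc h hh) {h' | pre h' m = pre h m}
        (mem_nhds_iff_pre.mpr ⟨m, fun _ h => h⟩)
      obtain ⟨h', ⟨hh'1, hh'2⟩, hne⟩ := hacc
      have hd : ∃ i, h' i ≠ h i := by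
        by_contra hcon
        push Not at hcon
        exact hne (funext hcon)
      obtain ⟨i, hi⟩ := hd
      have him : m ≤ i := by
        by_contra hcon
        rw [not_le] at hcon
        exact hi (pre_eq_iff.mp hh'1 i hcon)
      refine ⟨pre h (i + 1), ⟨h, hh, _, rfl⟩, pre h' (i + 1), ⟨h', hh'2, _, rfl⟩,
        pre_isPrefix h (by omega), ?_, ?_, ?_⟩
      · rw [← show pre h' m = pre h m from hh'1]
        exact pre_isPrefix h' (by omega)
      · intro h1
        have := h1.eq_of_length (by simp)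
        exact hi (pre_eq_iff.mp this i (Nat.lt_succ_self i)).symm
      · intro h1
        have := h1.eq_of_length (by simp)
        exact hi (pre_eq_iff.mp this i (Nat.lt_succ_self i))
  · intro g hg
    exact ⟨body (largest T), ⟨fun h hh n => largest_subset T (hh n),
      perfect_body (isPerfectTree_largest T)⟩, hg⟩

/-- A tree between the largest perfect subtree and `T`, well-founded off it, has the right body. -/
theorem body_eq_kernel {T S : Set (List ℕ)} (hS : largest T ⊆ S)
    (hfin : ∀ σ, σ ∉ largest T → {τ | τ ∈ S ∧ σ <+: τ}.Finite) : body S = kernel (body T) := by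
  rw [kernel_body]
  apply Set.Subset.antisymm
  · intro g hg n
    by_contra hcon
    refine (Set.infinite_of_injective_forall_mem (f := fun k => pre g (n + k)) ?_ ?_)
      (hfin _ hcon)
    · intro a b h
      have := congrArg List.length h
      simpa using this
    · intro k
      exact ⟨hg _, pre_isPrefix g (Nat.le_add_right _ _)⟩
  · intro g hg n
    exact hS (hg n)

/-! ### The tree of queries -/

/-- The tree attached to a normal form of an analytic relation. -/
def QT (P : ℕ × List ℕ × List ℕ → Prop) (x : ℕ → ℕ) : Set (List ℕ) :=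
  {l | l = [] ∨ ∃ a l', l = a :: l' ∧ ∀ i < l'.length + 1,
    P (a, pre x i, (l'.map (fun j => j / 2)).take i)}

theorem isTree_QT (P : ℕ × List ℕ × List ℕ → Prop) (x : ℕ → ℕ) : IsTree (QT P x) := by
  rintro σ τ h (rfl | ⟨a, l', rfl, h2⟩)
  · left
    exact List.prefix_nil.mp h
  · rcases σ with _ | ⟨b, σ⟩
    · exact Or.inl rfl
    · rw [List.cons_prefix_cons] at h
      obtain ⟨rfl, h⟩ := h
      refine Or.inr ⟨b, σ, rfl, ?_⟩
      intro i hi
      have h3 := h.length_le
      have h4 := h2 i (by omega)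
      have h5 : (σ.map (fun j => j / 2)).take i = (l'.map (fun j => j / 2)).take i := by
        obtain ⟨ρ, rfl⟩ := h
        rw [List.map_append, List.take_append_of_le_length]
        simpa using Nat.lt_succ_iff.mp hi
      rw [h5]
      exact h4

theorem mem_largest_QT (P : ℕ × List ℕ × List ℕ → Prop) (x : ℕ → ℕ) (a : ℕ) :
    [a] ∈ largest (QT P x) ↔ ∃ w : ℕ → ℕ, ∀ n, P (a, pre x n, pre w n) := by
  constructor
  · rintro ⟨T', hT', hP, hσ⟩
    obtain ⟨g, hg, hga⟩ := hP.exists_path hσ
    refine ⟨fun i => g (i + 1) / 2, fun n => ?_⟩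
    have h1 := hT' (hg (n + 1))
    rw [pre_succ'] at h1
    have h0 : g 0 = a := by
      have : pre g 1 = [a] := hga
      rw [pre_succ'] at this
      exact (List.cons.inj this).1
    rcases h1 with h1 | ⟨b, l', h1, h2⟩
    · cases h1
    · obtain ⟨h3, h4⟩ := List.cons.inj h1
      rw [h0] at h3
      subst h3
      have h5 := h2 n (by rw [← h4]; simp)
      rw [← h4, pre_map, pre_take _ _ _ le_rfl] at h5
      exact h5
  · rintro ⟨w, hw⟩
    refine ⟨{l | l = [] ∨ ∃ l' : List ℕ, l = a :: l' ∧ l'.map (fun j => j / 2) =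
      pre w l'.length}, ?_, ⟨?_, ?_⟩, ?_⟩
    · rintro l (rfl | ⟨l', rfl, hl'⟩)
      · exact Or.inl rfl
      · refine Or.inr ⟨a, l', rfl, ?_⟩
        intro i hi
        rw [hl', pre_take _ _ _ (Nat.lt_succ_iff.mp hi)]
        exact hw i
    · rintro σ τ h (rfl | ⟨l', rfl, hl'⟩)
      · exact Or.inl (List.prefix_nil.mp h)
      · rcases σ with _ | ⟨b, σ⟩
        · exact Or.inl rfl
        · rw [List.cons_prefix_cons] at h
          obtain ⟨rfl, ρ, rfl⟩ := h
          refine Or.inr ⟨σ, rfl, ?_⟩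
          have h1 : σ.map (fun j => j / 2) <+: pre w (σ ++ ρ).length := by
            rw [← hl', List.map_append]
            exact List.prefix_append _ _
          have h2 := eq_pre_of_isPrefix h1
          rwa [List.length_map] at h2
    · have key : ∀ l' : List ℕ, l'.map (fun j => j / 2) = pre w l'.length →
          ∀ c : ℕ, c < 2 → (l' ++ [2 * w l'.length + c]).map (fun j => j / 2) =
            pre w (l' ++ [2 * w l'.length + c]).length := by
        intro l' hl' c hc
        rw [List.map_append, hl', List.length_append, List.length_singleton, pre_succ]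
        congr 1
        simp only [List.map_cons, List.map_nil, List.cons.injEq, and_true]
        omega
      have main : ∀ l' : List ℕ, l'.map (fun j => j / 2) = pre w l'.length →
          ∀ σ : List ℕ, σ <+: a :: l' →
          ∃ τ₁ ∈ {l | l = [] ∨ ∃ l' : List ℕ, l = a :: l' ∧ l'.map (fun j => j / 2) =
            pre w l'.length}, ∃ τ₂ ∈ {l | l = [] ∨ ∃ l' : List ℕ, l = a :: l' ∧
            l'.map (fun j => j / 2) = pre w l'.length},
          σ <+: τ₁ ∧ σ <+: τ₂ ∧ ¬ τ₁ <+: τ₂ ∧ ¬ τ₂ <+: τ₁ := by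
        intro l' hl' σ hσ
        have hp : ∀ c : ℕ, σ <+: a :: (l' ++ [2 * w l'.length + c]) := by
          intro c
          refine hσ.trans ?_
          rw [← List.cons_append]
          exact List.prefix_append _ _
        refine ⟨a :: (l' ++ [2 * w l'.length + 0]), Or.inr ⟨_, rfl, key l' hl' 0 (by omega)⟩,
          a :: (l' ++ [2 * w l'.length + 1]), Or.inr ⟨_, rfl, key l' hl' 1 (by omega)⟩,
          hp 0, hp 1, ?_, ?_⟩
        · intro h
          have := h.eq_of_length (by simp)
          simp at this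
        · intro h
          have := h.eq_of_length (by simp)
          simp at this
      rintro σ (rfl | ⟨l', rfl, hl'⟩)
      · exact main [] (by simp [pre]) [] List.nil_prefix
      · exact main l' hl' _ List.prefix_rfl
    · exact Or.inr ⟨[], rfl, by simp [pre]⟩

end Pool.Agent.Lib.MP_a7e1fe_lc
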