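import Pool.Agent.Lib.MP_a7e1fe_lc.Construction

/-!
# Every composition of a problem below `lim` with one below `PK_{ℕ^ℕ}` is below `PK`
-/

open Set Primrec Encodable Filter Topology
open Pool.Agent.Lib.MP_a8cc1b_lc

namespace Pool.Agent.Lib.MP_a7e1fe_lc

/-- The graph of the pairing of two sequences given by their graphs. -/
def joinG (G H : (ℕ → ℕ) → ℕ × ℕ → Prop) (z : ℕ → ℕ) (q : ℕ × ℕ) : Prop :=
  (q.1 % 2 = 0 ∧ G z (q.1 / 2, q.2)) ∨ (¬ q.1 % 2 = 0 ∧ H z (q.1 / 2, q.2))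

theorem s01_joinG {G H : (ℕ → ℕ) → ℕ × ℕ → Prop} (hG : S01 G) (hH : S01 H) :
    S01 (joinG G H) := by
  have hm : PrimrecPred fun q : ℕ × ℕ => q.1 % 2 = 0 :=
    Primrec.eq.comp (nat_mod.comp fst (Primrec.const 2)) (Primrec.const 0)
  have hg : Primrec fun q : ℕ × ℕ => (q.1 / 2, q.2) :=
    (nat_div.comp fst (Primrec.const 2)).pair snd
  exact ((S01.of_primrec hm).and (hG.comp hg)).or ((S01.of_primrec hm.not).and (hH.comp hg))

theorem isGraph_joinG {G H : (ℕ → ℕ) → ℕ × ℕ → Prop} {z y w : ℕ → ℕ} (hG : IsGraph G z y)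
    (hH : IsGraph H z w) : IsGraph (joinG G H) z (join y w) := by
  intro n v
  show (n % 2 = 0 ∧ G z (n / 2, v)) ∨ (¬ n % 2 = 0 ∧ H z (n / 2, v)) ↔ v = join y w n
  rw [hG, hH, join]
  by_cases h : n % 2 = 0
  · simp [h]
  · simp [h]

/-- The graph of the even part of the oracle. -/
def evenG (z : ℕ → ℕ) (q : ℕ × ℕ) : Prop := z (2 * q.1) = q.2

theorem s01_evenG : S01 evenG :=
  S01.eval (p := fun q : (ℕ × ℕ) × ℕ => q.2 = q.1.2) (Primrec.eq.comp snd (snd.comp fst))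
    (nat_double.comp fst)

theorem isGraph_evenG (p K : ℕ → ℕ) : IsGraph evenG (join p K) p := by
  intro n v
  show join p K (2 * n) = v ↔ v = p n
  rw [join_even]
  exact eq_comm

/-- The graph of the oracle. -/
def idG (z : ℕ → ℕ) (q : ℕ × ℕ) : Prop := z q.1 = q.2

theorem s01_idG : S01 idG :=
  S01.eval (p := fun q : (ℕ × ℕ) × ℕ => q.2 = q.1.2) (Primrec.eq.comp snd (snd.comp fst)) fst

theorem isGraph_idG (p : ℕ → ℕ) : IsGraph idG p p := fun _ _ => eq_comm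

/-- The graph of the output of a machine. -/
def outG (φ : List ℕ × ℕ → Option ℕ) (z : ℕ → ℕ) (q : ℕ × ℕ) : Prop := Outputs φ z q.1 q.2

theorem s01_outG {φ : List ℕ × ℕ → Option ℕ} (hφ : Computable φ) : S01 (outG φ) :=
  S01.outputs hφ

theorem isGraph_outG {φ : List ℕ × ℕ → Option ℕ} {p q : ℕ → ℕ} (h : Computes φ p q) :
    IsGraph (outG φ) p q := isGraph_outputs h

theorem comp_le_PK {X Y Z : RepSpace} (f : Problem Y Z) (g : Problem X Y)
    (hg : WLe g PKClosed) (hf : WLe f limP) : WLe (f.comp g) PK := by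
  obtain ⟨φ₂, ψ₂, hφ₂, hψ₂, hg⟩ := hg
  obtain ⟨φ₁, ψ₁, hφ₁, hψ₁, hf⟩ := hf
  -- the composition of the inner machines
  obtain ⟨RT, hRT, hRT'⟩ := (s01_outG hφ₁).subst (s01_outG hψ₂)
  obtain ⟨PT, hPT, hmono, hPT'⟩ := hRT.mono
  obtain ⟨P, hP, hPQ⟩ := exists_QT hPT
  obtain ⟨GQ, hGQ, hGQ'⟩ := exists_QT_graph hP
  obtain ⟨GS, NQ, hGS, hNQ, hcons⟩ := exists_construction hPT hmono
  -- the preprocessing machine
  obtain ⟨GA, hGA, hGA'⟩ := hGQ.subst (s01_joinG s01_idG (s01_outG hφ₂))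
  obtain ⟨φ, hφ, hφ'⟩ := exists_machine hGA
  -- the postprocessing machine
  obtain ⟨Gr, hGr, hGr'⟩ := (s01_outG hψ₂).subst (s01_joinG s01_evenG hGS)
  obtain ⟨RT2, hRT2, hRT2'⟩ := hRT.subst (s01_joinG s01_evenG hGS)
  let Gl : (ℕ → ℕ) → ℕ × ℕ → Prop := fun z q =>
    ∃ N : ℕ, NQ z (Nat.pair q.1 N) ∧ RT2 z (Nat.pair N q.1, q.2)
  have hGl : S01 Gl := by
    have h1 : S01 (fun z (r : (ℕ × ℕ) × ℕ) =>
        NQ z (Nat.pair r.1.1 r.2) ∧ RT2 z (Nat.pair r.2 r.1.1, r.1.2)) := by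
      apply S01.and
      · exact hNQ.comp (g := fun r : (ℕ × ℕ) × ℕ => Nat.pair r.1.1 r.2)
          (Primrec₂.natPair.comp (fst.comp fst) snd)
      · exact hRT2.comp (g := fun r : (ℕ × ℕ) × ℕ => (Nat.pair r.2 r.1.1, r.1.2))
          ((Primrec₂.natPair.comp snd (fst.comp fst)).pair (snd.comp fst))
    exact h1.exN
  obtain ⟨GO, hGO, hGO'⟩ := (s01_outG hψ₁).subst (s01_joinG hGr hGl)
  obtain ⟨ψ, hψ, hψ'⟩ := exists_machine hGO
  refine ⟨φ, ψ, hφ, hψ, ?_⟩
  rintro x ⟨c0, hx1, y0, hy0, -⟩ p hp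
  obtain ⟨p₂, A, hp₂, ⟨T, hT, hTA⟩, -, hgx⟩ := hg x ⟨y0, hy0⟩ p hp
  set x₀ := join p p₂ with hx₀
  have hodd : oddTree x₀ = T.1 := by
    ext σ
    show x₀ (2 * encode σ + 1) = 1 ↔ _
    rw [hx₀, join_odd]
    have h1 := hT σ
    constructor
    · intro h
      by_contra h2
      rw [h1.2 h2] at h
      cases h
    · exact h1.1
  -- the tree of queries and its name
  let TQ : Tr.Point := ⟨QT P x₀, isTree_QT P x₀⟩
  obtain ⟨y, hy⟩ := Tr.total TQ
  have hgy : IsGraph GA p y := by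
    intro n v
    rw [hGA' p x₀ (isGraph_joinG (isGraph_idG p) (isGraph_outG hp₂))]
    exact hGQ' x₀ y hy n v
  have hlarT : IsTree (largest (QT P x₀)) := (isPerfectTree_largest _).1
  refine ⟨y, TQ, hφ' p y hgy, hy, ⟨⟨largest (QT P x₀), hlarT⟩, rfl⟩, ?_⟩
  rintro K ⟨S', hS'⟩ hS'eq hK
  have hS'' : S' = largest (QT P x₀) := hS'eq
  subst hS''
  set z := join p K with hz
  have hgood : GoodZ PT (largest T.1) x₀ z := by
    refine ⟨fun k => by rw [hz, hx₀, join_even, join_even], by rw [hodd], fun q => ?_⟩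
    rw [← hPQ]
    show z (2 * encode [encode q] + 1) = 1 ↔ _
    rw [hz, join_odd]
    have h1 := hK [encode q]
    constructor
    · intro h
      by_contra h2
      rw [h1.2 h2] at h
      cases h
    · exact h1.1
  obtain ⟨S, hS1, hS2, hS3, hS4, hS5, hS6⟩ := hcons _ x₀ z hgood
  have hxe : (fun k => x₀ (2 * k)) = p := by
    funext k
    rw [hx₀, join_even]
  rw [hxe] at hS6
  -- `S` names the kernel
  let TS : Tr.Point := ⟨{σ | S (encode σ) = 1}, hS3⟩
  have hTS : Tr.Names S TS := by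
    intro σ
    refine ⟨fun h => h, fun h => ?_⟩
    rcases hS2 (encode σ) with h1 | h1
    · exact h1
    · exact absurd h1 h
  have hker : body TS.1 = kernel A.1 := by
    rw [← hTA]
    exact body_eq_kernel hS4 hS5
  obtain ⟨r, y1, hr, hry, hgxy⟩ := hgx S ⟨body TS.1, isClosed_body _⟩ hker ⟨TS, hTS, rfl⟩
  obtain ⟨s, seq, hs, hsseq, ⟨l, hl⟩, hfy⟩ := hf y1 (hx1 y1 hgxy) r hry
  obtain ⟨r', c, hr', hrc, hfc⟩ := hfy l l hl rfl
  -- the limit
  have hl' : Tendsto seq atTop (𝓝 l) := hl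
  have hlk : ∀ k, ∃ N, ∀ n, N ≤ n → seq n k = l k := by
    intro k
    have h1 := (tendsto_pi_nhds.mp hl') k
    rw [nhds_discrete, tendsto_pure] at h1
    exact eventually_atTop.mp h1
  have hjoin : IsGraph (joinG evenG GS) z (join p S) :=
    isGraph_joinG (isGraph_evenG p K) hS1
  have hRTv : ∀ n k v, RT (join p S) (Nat.pair n k, v) ↔ v = seq n k := by
    intro n k v
    rw [hRT' (join p S) r (isGraph_outG hr), isGraph_outG hs]
    show v = s (Nat.pair n k) ↔ _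
    rw [hsseq n k]
  have hNQv : ∀ k N, NQ z (Nat.pair k N) ↔ ∀ n > N, seq n k = seq N k := by
    intro k N
    rw [hS6]
    constructor
    · intro h n hn
      by_contra hne
      apply h
      refine ⟨n, hn, seq N k, seq n k, fun h1 => hne h1.symm, ?_, ?_⟩
      · rw [← hPT']
        exact (hRTv _ _ _).mpr rfl
      · rw [← hPT']
        exact (hRTv _ _ _).mpr rfl
    · rintro h ⟨n, hn, v, v', hvv, h1, h2⟩
      rw [← hPT', hRTv] at h1 h2
      rw [h1, h2] at hvv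
      exact hvv (h n hn).symm
  have hGl' : IsGraph Gl z l := by
    intro k v
    show (∃ N : ℕ, NQ z (Nat.pair k N) ∧ RT2 z (Nat.pair N k, v)) ↔ v = l k
    constructor
    · rintro ⟨N, h1, h2⟩
      rw [hNQv] at h1
      rw [hRT2' z (join p S) hjoin, hRTv] at h2
      obtain ⟨N', hN'⟩ := hlk k
      rw [h2, ← h1 (max N' (N + 1)) (by
        have := le_max_right N' (N + 1)
        omega)]
      exact hN' _ (le_max_left _ _)
    · rintro rfl
      obtain ⟨N, hN⟩ := hlk k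
      refine ⟨N, ?_, ?_⟩
      · rw [hNQv]
        intro n hn
        rw [hN n (le_of_lt hn), hN N le_rfl]
      · rw [hRT2' z (join p S) hjoin, hRTv, hN N le_rfl]
  have hGr'' : IsGraph Gr z r := by
    intro n v
    rw [hGr' z (join p S) hjoin]
    exact isGraph_outG hr n v
  have hGO'' : IsGraph GO z r' := by
    intro n v
    rw [hGO' z (join r l) (isGraph_joinG hGr'' hGl')]
    exact isGraph_outG hr' n v
  exact ⟨r', c, hψ' z r' hGO'', hrc, hx1, y1, hgxy, hfc⟩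

end Pool.Agent.Lib.MP_a7e1fe_lc
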